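import Mathlib

/-!
# Continuous first-order logic for bounded metric structures

Signatures, structures, formulas, types, saturation, definable predicates and definable sets.
-/

set_option autoImplicit false

open scoped unitInterval

noncomputable section

namespace Pool.Agent.H813.CL

universe u

/-- A signature of continuous logic: function symbols and predicate symbols, each with an arity and
a modulus of uniform continuity (`modF f ε`, `modR R ε` is the `δ` of `ε`). Constants are function
symbols of arity `0`. -/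
structure Sig : Type 1 where
  Fn : Type
  arF : Fn → ℕ
  modF : Fn → ℝ → ℝ
  modF_pos : ∀ f ε, 0 < ε → 0 < modF f ε
  Rel : Type
  arR : Rel → ℕ
  modR : Rel → ℝ → ℝ
  modR_pos : ∀ R ε, 0 < ε → 0 < modR R ε

/-- Metric structures for the signature `L`: nonempty complete metric spaces of diameter at most `1`
with an interpretation of every symbol that obeys its modulus of uniform continuity; predicates take
values in `[0,1]`. -/
structure Str (L : Sig) : Type (u + 1) where
  carrier : Type u
  [met : MetricSpace carrier]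
  complete : CompleteSpace carrier
  nonempty : Nonempty carrier
  dist_le : ∀ x y : carrier, dist x y ≤ 1
  fn : (f : L.Fn) → (Fin (L.arF f) → carrier) → carrier
  rel : (R : L.Rel) → (Fin (L.arR R) → carrier) → I
  fn_unif : ∀ (f : L.Fn) (ε : ℝ), 0 < ε → ∀ x y : Fin (L.arF f) → carrier,
    (∀ i, dist (x i) (y i) < L.modF f ε) → dist (fn f x) (fn f y) ≤ ε
  rel_unif : ∀ (R : L.Rel) (ε : ℝ), 0 < ε → ∀ x y : Fin (L.arR R) → carrier,
    (∀ i, dist (x i) (y i) < L.modR R ε) → |(rel R x : ℝ) - rel R y| ≤ ε

attribute [instance] Str.met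

/-- The metric of a structure as a function to `[0,1]`. -/
def Str.dI {L : Sig} (M : Str.{u} L) (x y : M.carrier) : I := ⟨dist x y, dist_nonneg, M.dist_le x y⟩

/-- Terms with variables from `V`. -/
inductive Tm (L : Sig) (V : Type u) : Type u
  | var : V → Tm L V
  | fn : (f : L.Fn) → (Fin (L.arF f) → Tm L V) → Tm L V

/-- The value of a term. -/
def Tm.val {L : Sig} (M : Str.{u} L) {V : Type u} (e : V → M.carrier) : Tm L V → M.carrier
  | .var v => e v
  | .fn f t => M.fn f (fun i => (t i).val M e)

/-- Formulas of continuous logic with parameters (new constants) from `A` and with the free variables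
`x_0, …, x_{n-1}`: the metric and the predicate symbols applied to terms, all continuous connectives
`[0,1]^k → [0,1]`, and the quantifiers `inf`, `sup`. -/
inductive Fm (L : Sig) (A : Type u) : ℕ → Type u
  | dist {n : ℕ} : Tm L (A ⊕ Fin n) → Tm L (A ⊕ Fin n) → Fm L A n
  | rel {n : ℕ} : (R : L.Rel) → (Fin (L.arR R) → Tm L (A ⊕ Fin n)) → Fm L A n
  | conn {n : ℕ} : (k : ℕ) → C(Fin k → I, I) → (Fin k → Fm L A n) → Fm L A n
  | inf {n : ℕ} : Fm L A (n + 1) → Fm L A n
  | sup {n : ℕ} : Fm L A (n + 1) → Fm L A n

/-- The value in `M` of a formula when the parameters are interpreted by `v` and the variables have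
the values `x`. -/
def Fm.val {L : Sig} (M : Str.{u} L) {A : Type u} (v : A → M.carrier) :
    {n : ℕ} → Fm L A n → (Fin n → M.carrier) → I
  | _, .dist s t, x => M.dI (s.val M (Sum.elim v x)) (t.val M (Sum.elim v x))
  | _, .rel R t, x => M.rel R (fun i => (t i).val M (Sum.elim v x))
  | _, .conn _ c φ, x => c (fun i => (φ i).val M v x)
  | _, .inf φ, x => ⨅ a : M.carrier, φ.val M v (Fin.snoc (α := fun _ => M.carrier) x a)
  | _, .sup φ, x => ⨆ a : M.carrier, φ.val M v (Fin.snoc (α := fun _ => M.carrier) x a)

/-- The value in `M` at `x ∈ M^n` of a formula whose parameters are elements of a set `A ⊆ M`. -/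
def Str.ev {L : Sig} (M : Str.{u} L) (A : Set M.carrier) {n : ℕ} (φ : Fm L A n)
    (x : Fin n → M.carrier) : I :=
  φ.val M (fun a : A => (a : M.carrier)) x

/-- `M` is `κ`-saturated: for every set `A` of fewer than `κ` parameters, every set `Γ` of conditions
`φ(x_0, …, x_{n-1}) = 0` with parameters in `A` that is finitely satisfiable in `M` is satisfied
in `M`. -/
def Str.Saturated {L : Sig} (M : Str.{u} L) (κ : Cardinal.{u}) : Prop :=
  ∀ A : Set M.carrier, Cardinal.mk A < κ → ∀ (n : ℕ) (Γ : Set (Fm L A n)),
    (∀ F : Finset (Fm L A n), (∀ φ ∈ F, φ ∈ Γ) →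
      ∃ x : Fin n → M.carrier, ∀ φ ∈ F, M.ev A φ x = 0) →
    ∃ x : Fin n → M.carrier, ∀ φ ∈ Γ, M.ev A φ x = 0

/-- The type space `S_n(A)`: the complete `n`-types over `A`, i.e. the families `(p(φ))` of values of all
formulas with parameters in `A` such that the conditions `φ = p(φ)` are (approximately) finitely
satisfiable in `M`. -/
def Str.types {L : Sig} (M : Str.{u} L) (A : Set M.carrier) (n : ℕ) : Set (Fm L A n → I) :=
  {p | ∀ (F : Finset (Fm L A n)) (ε : ℝ), 0 < ε →
    ∃ x : Fin n → M.carrier, ∀ φ ∈ F, |(M.ev A φ x : ℝ) - p φ| ≤ ε}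

/-- The tuple `a` realises `p`. -/
def Str.Realizes {L : Sig} (M : Str.{u} L) {A : Set M.carrier} {n : ℕ} (a : Fin n → M.carrier)
    (p : Fm L A n → I) : Prop :=
  ∀ φ : Fm L A n, M.ev A φ a = p φ

/-- The metric on types, `d(p,q) = inf {d(a,b) : a ⊨ p, b ⊨ q}` (on tuples, `d` is the maximum
of the distances of the coordinates). -/
def Str.typeDist {L : Sig} (M : Str.{u} L) {A : Set M.carrier} {n : ℕ} (p q : Fm L A n → I) : ℝ :=
  sInf {r : ℝ | ∃ a b : Fin n → M.carrier, M.Realizes a p ∧ M.Realizes b q ∧ r = dist a b}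

/-- `ω`-stability (of the complete theory of the monster model `M`): for every countable `A`, the type
space `S_1(A)` with the metric on types is separable. -/
def Str.OmegaStable {L : Sig} (M : Str.{u} L) : Prop :=
  ∀ A : Set M.carrier, A.Countable → ∃ C : Set (Fm L A 1 → I), C.Countable ∧ C ⊆ M.types A 1 ∧
    ∀ p ∈ M.types A 1, ∀ ε : ℝ, 0 < ε → ∃ q ∈ C, M.typeDist p q < ε

/-- `P : M^n → ℝ` is a definable predicate over `A`: a uniform limit of formulas with parameters
in `A`. -/
def Str.DefPred {L : Sig} (M : Str.{u} L) (A : Set M.carrier) {n : ℕ}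
    (P : (Fin n → M.carrier) → ℝ) : Prop :=
  ∀ ε : ℝ, 0 < ε → ∃ φ : Fm L A n, ∀ x : Fin n → M.carrier, |(M.ev A φ x : ℝ) - P x| ≤ ε

/-- `D ⊆ M^n` is definable over `A`: it is closed and the distance `dist(x, D) = inf_{y ∈ D} d(x,y)`
is a definable predicate over `A`. -/
def Str.DefSet {L : Sig} (M : Str.{u} L) (A : Set M.carrier) {n : ℕ}
    (D : Set (Fin n → M.carrier)) : Prop :=
  IsClosed D ∧ M.DefPred A (fun x => Metric.infDist x D)

/-- The complete type `p` belongs to `D`: some realisation of `p` lies in `D`. -/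
def Str.TypeIn {L : Sig} (M : Str.{u} L) {A : Set M.carrier} {n : ℕ} (p : Fm L A n → I)
    (D : Set (Fin n → M.carrier)) : Prop :=
  ∃ a ∈ D, M.Realizes a p

/-- `M` (a monster model, in which the small sets are the sets with fewer than `κ` elements) has
enough definable sets: for every small `A`, every `n` and every `p ∈ S_n(A)`, the type `p` is the
only type in `S_n(A)` that belongs to every `A`-definable set that contains `p`. -/
def Str.EnoughDefinableSets {L : Sig} (M : Str.{u} L) (κ : Cardinal.{u}) : Prop :=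
  ∀ A : Set M.carrier, Cardinal.mk A < κ → ∀ n : ℕ, ∀ p ∈ M.types A n, ∀ q ∈ M.types A n,
    (∀ D : Set (Fin n → M.carrier), M.DefSet A D → M.TypeIn p D → M.TypeIn q D) → q = p

end Pool.Agent.H813.CL
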