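import Pool.Agent.H813.CL.Sat

/-!
# `ω`-stable theories have enough definable sets
-/

set_option autoImplicit false

open scoped unitInterval

noncomputable section

namespace Pool.Agent.H813.CL

universe u

variable {L : Sig} {M : Str.{u} L}

/-- `K (z - s)` cut off to `[0,1]` -/
def sc (s K : ℝ) (z : I) : I := Set.projIcc 0 1 zero_le_one (K * ((z : ℝ) - s))

theorem continuous_sc (s K : ℝ) : Continuous (sc s K) :=
  continuous_projIcc.comp (continuous_const.mul (continuous_subtype_val.sub continuous_const))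

theorem sc_eq_zero {s K : ℝ} {z : I} (hK : 0 ≤ K) (h : (z : ℝ) ≤ s) : sc s K z = 0 := by
  unfold sc
  apply Set.projIcc_of_le_left
  exact mul_nonpos_of_nonneg_of_nonpos hK (by linarith)

theorem sc_eq_one {s K : ℝ} {z : I} (hK : 0 < K) (h : s + 1 / K ≤ z) : sc s K z = 1 := by
  unfold sc
  apply Set.projIcc_of_right_le
  have : 1 / K ≤ (z : ℝ) - s := by linarith
  calc (1 : ℝ) = K * (1 / K) := by field_simp
    _ ≤ K * (z - s) := by gcongr

/-- `a + ε - b` cut off to `[0,1]` -/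
def gap (ε : ℝ) (a b : I) : I := Set.projIcc 0 1 zero_le_one ((a : ℝ) + ε - b)

theorem continuous_gap (ε : ℝ) : Continuous (fun z : I × I => gap ε z.1 z.2) :=
  continuous_projIcc.comp (((continuous_subtype_val.comp continuous_fst).add
    continuous_const).sub (continuous_subtype_val.comp continuous_snd))

theorem gap_eq_zero {ε : ℝ} {a b : I} : gap ε a b = 0 ↔ (a : ℝ) + ε ≤ b := by
  unfold gap
  have h := Set.projIcc_eq_left (a := (0 : ℝ)) (b := 1) (x := (a : ℝ) + ε - b) zero_lt_one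
  constructor
  · intro h1
    have := h.1 h1
    linarith
  · intro h1
    exact h.2 (by linarith)

/-- the approximations of the distance from `{f < t}` -/
def psi (M : Str.{u} L) {n : ℕ} (f : (Fin n → M.carrier) → I) (s K : ℝ) (x : Fin n → M.carrier) : I :=
  ⨅ y : Fin n → M.carrier, sc s K (f y) ⊔ M.dIn x y

section

variable {A : Set M.carrier} {n : ℕ} {f : (Fin n → M.carrier) → I}

theorem form_psi (hf : Form M A n f) (s K : ℝ) : Form M A n (psi M f s K) := by
  have h1 : Form M A (n + n) (fun z : Fin (n + n) → M.carrier =>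
      sc s K (f (fun i => z (Fin.natAdd n i))) ⊔
        M.dIn (fun i => z (Fin.castAdd n i)) (fun i => z (Fin.natAdd n i))) :=
    Form.conn2 (c := fun z w => z ⊔ w) (by fun_prop)
      (Form.conn1 (continuous_sc s K) (hf.reindex (Fin.natAdd n))) Form.distb
  refine h1.iInf_block.congr (fun x => ?_)
  simp only [Fin.append_left, Fin.append_right]
  rfl

theorem psi_le {s K : ℝ} (hK : 0 ≤ K) {x y : Fin n → M.carrier} (h : (f y : ℝ) ≤ s) :
    psi M f s K x ≤ M.dIn x y := by
  refine iInf_le_of_le y ?_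
  rw [sc_eq_zero hK h]
  exact sup_le (bot_eq0 ▸ bot_le) (le_refl _)

theorem le_psi {s K s' : ℝ} (hK : 0 < K) (hs : s + 1 / K ≤ s') {x : Fin n → M.carrier} {r : I}
    (h : ∀ y : Fin n → M.carrier, (f y : ℝ) < s' → r ≤ M.dIn x y) : r ≤ psi M f s K x := by
  refine le_iInf fun y => ?_
  rcases lt_or_ge (f y : ℝ) s' with h1 | h1
  · exact le_sup_of_le_right (h y h1)
  · rw [sc_eq_one hK (hs.trans h1)]
    exact le_sup_of_le_left (top_eq1 ▸ le_top)

/-- the sequence of approximations -/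
def psk (M : Str.{u} L) {n : ℕ} (f : (Fin n → M.carrier) → I) (t : ℝ) (k : ℕ) :
    (Fin n → M.carrier) → I :=
  psi M f (t - 1 / (k + 1)) (2 * (k + 1))

theorem psk_key (t : ℝ) (k : ℕ) :
    t - 1 / ((k : ℝ) + 1) + 1 / (2 * ((k : ℝ) + 1)) = t - 1 / (2 * ((k : ℝ) + 1)) := by
  have : (k : ℝ) + 1 ≠ 0 := by positivity
  field_simp
  ring

theorem psk_mono {t : ℝ} {k m : ℕ} (h : 2 * (k + 1) ≤ m + 1) (x : Fin n → M.carrier) :
    psk M f t m x ≤ psk M f t k x := by
  have hk : (0 : ℝ) < 2 * ((k : ℝ) + 1) := by positivity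
  refine le_psi hk (le_of_eq (psk_key t k)) (fun y hy => ?_)
  refine psi_le (by positivity) (hy.le.trans ?_)
  have h1 : (2 : ℝ) * (k + 1) ≤ m + 1 := by exact_mod_cast h
  have := one_div_le_one_div_of_le hk h1
  linarith

theorem infDist_le_psk {t : ℝ} {k : ℕ} (x : Fin n → M.carrier)
    (hne : {y | (f y : ℝ) < t}.Nonempty) :
    Metric.infDist x {y | (f y : ℝ) < t} ≤ psk M f t k x := by
  obtain ⟨y₀, hy₀⟩ := hne
  have h1 : Metric.infDist x {y | (f y : ℝ) < t} ≤ 1 :=
    (Metric.infDist_le_dist_of_mem hy₀).trans (by rw [← M.coe_dIn]; exact (M.dIn x y₀).2.2)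
  have h2 : (⟨Metric.infDist x {y | (f y : ℝ) < t}, Metric.infDist_nonneg, h1⟩ : I) ≤
      psk M f t k x := by
    refine le_psi (by positivity) (le_of_eq (psk_key t k)) (fun y hy => ?_)
    show Metric.infDist x {y | (f y : ℝ) < t} ≤ (M.dIn x y : ℝ)
    rw [M.coe_dIn]
    refine Metric.infDist_le_dist_of_mem ?_
    show (f y : ℝ) < t
    have : (0 : ℝ) < 1 / (2 * ((k : ℝ) + 1)) := by positivity
    linarith
  exact h2

variable (M A) in
/-- the points of the closure of `{f < t}` in the logic topology over `A` -/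
def LC {n : ℕ} (f : (Fin n → M.carrier) → I) (t : ℝ) (k : Fin n → M.carrier) : Prop :=
  ∀ χ, Form M A n χ → (∀ y, (f y : ℝ) < t → χ y = 0) → χ k = 0

variable (M A) in
/-- `t` is good -/
def Good {n : ℕ} (f : (Fin n → M.carrier) → I) (t : ℝ) : Prop :=
  ∀ k, LC M A f t k → ∀ δ : ℝ, 0 < δ → ∃ z, (f z : ℝ) < t ∧ dist k z < δ

theorem LC.le (hf : Form M A n f) {t : ℝ} {k : Fin n → M.carrier} (h : LC M A f t k) :
    (f k : ℝ) ≤ t := by
  have := h _ (hf.conn1 (continuous_cut t)) (fun y hy => cut_eq_zero.2 hy.le)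
  exact cut_eq_zero.1 this

variable {κ : Cardinal.{u}}

theorem defPred_of_good (hs : M.Saturated κ) (hκ : Cardinal.aleph0 < κ) (hA : A.Countable)
    (hf : Form M A n f) {t : ℝ} (hne : {y | (f y : ℝ) < t}.Nonempty) (hg : Good M A f t) :
    M.DefPred A (fun x => Metric.infDist x (closure {y | (f y : ℝ) < t})) := by
  classical
  simp only [Metric.infDist_closure]
  by_contra hcon
  unfold Str.DefPred at hcon
  push Not at hcon
  obtain ⟨ε, hε, h⟩ := hcon
  have h1 : ∀ m : ℕ, ∃ x y : Fin n → M.carrier, (f y : ℝ) < t ∧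
      (M.dIn x y : ℝ) + ε ≤ psk M f t m x := by
    intro m
    obtain ⟨φ, hφ⟩ := form_psi hf (t - 1 / (m + 1)) (2 * (m + 1))
    obtain ⟨x, hx⟩ := h φ
    rw [hφ] at hx
    have h2 := infDist_le_psk (M := M) (f := f) (t := t) (k := m) x hne
    have hx' : ε < |(psk M f t m x : ℝ) - Metric.infDist x {y | (f y : ℝ) < t}| := hx
    rw [abs_of_nonneg (by linarith)] at hx'
    have h3 : Metric.infDist x {y | (f y : ℝ) < t} < psk M f t m x - ε := by linarith
    obtain ⟨y, hy, hd⟩ := (Metric.infDist_lt_iff hne).1 h3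
    exact ⟨x, y, hy, by rw [M.coe_dIn]; linarith⟩
  obtain ⟨z, hz⟩ := satE (A := A) (n := n + n) hs (mk_lt_of_countable hκ hA)
    (Sum.elim (fun (k : ℕ) (z : Fin (n + n) → M.carrier) =>
        gap ε (M.dIn (fun i => z (Fin.castAdd n i)) (fun i => z (Fin.natAdd n i)))
          (psk M f t k (fun i => z (Fin.castAdd n i))))
      (fun (χ : {χ // Form M A n χ ∧ ∀ y, (f y : ℝ) < t → χ y = 0}) z =>
        χ.1 (fun i => z (Fin.natAdd n i)))) (by
      rintro (k | χ)
      · exact Form.conn2 (c := gap ε) (continuous_gap ε) Form.distb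
          ((form_psi hf _ _).reindex (Fin.castAdd n))
      · exact χ.2.1.reindex (Fin.natAdd n)) (by
      intro s ε' hε'
      obtain ⟨x, y, hy, hxy⟩ := h1 (2 * (s.sup (Sum.elim id (fun _ => 0))) + 1)
      refine ⟨Fin.append x y, ?_⟩
      rintro (k | χ) hmem
      · have hk : k ≤ s.sup (Sum.elim id (fun _ => 0)) :=
          Finset.le_sup (f := (Sum.elim id (fun _ => 0) :
            ℕ ⊕ {χ // Form M A n χ ∧ ∀ y, (f y : ℝ) < t → χ y = 0} → ℕ)) hmem
        have h4 := psk_mono (M := M) (f := f) (t := t) (k := k)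
          (m := 2 * (s.sup (Sum.elim id (fun _ => 0))) + 1) (by omega) x
        have h4' : (psk M f t (2 * (s.sup (Sum.elim id (fun _ => 0))) + 1) x : ℝ) ≤
          psk M f t k x := h4
        simp only [Sum.elim_inl, Fin.append_left, Fin.append_right]
        rw [gap_eq_zero.2 (hxy.trans h4')]
        exact hε'.le
      · simp only [Sum.elim_inr, Fin.append_right]
        rw [χ.2.2 y hy]
        exact hε'.le)
  set x : Fin n → M.carrier := fun i => z (Fin.castAdd n i) with hx
  set y : Fin n → M.carrier := fun i => z (Fin.natAdd n i) with hy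
  have h5 : ∀ k : ℕ, (M.dIn x y : ℝ) + ε ≤ psk M f t k x := fun k => gap_eq_zero.1 (hz (Sum.inl k))
  have h6 : LC M A f t y := fun χ h1 h2 => hz (Sum.inr ⟨χ, h1, h2⟩)
  obtain ⟨w, hw, hyw⟩ := hg y h6 (ε / 2) (by positivity)
  obtain ⟨k, hk⟩ := exists_nat_one_div_lt (sub_pos.2 hw)
  have h7 : (psk M f t k x : ℝ) ≤ M.dIn x w :=
    psi_le (M := M) (f := f) (s := t - 1 / (k + 1)) (K := 2 * (k + 1)) (by positivity)
      (by linarith)
  have h8 := h5 k
  rw [M.coe_dIn] at h7 h8
  have := dist_triangle x y w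
  linarith

theorem countable_bad (hs : M.Saturated κ) (hκ : Cardinal.aleph0 < κ) (hω : M.OmegaStable)
    (hA : A.Countable) (hf : Form M A n f) : {t : ℝ | ¬ Good M A f t}.Countable := by
  obtain ⟨C, hC, hCd⟩ := exists_dense hs hκ hω n A hA
  have h1 : {t : ℝ | ¬ Good M A f t} ⊆ ⋃ j : ℕ, {t : ℝ | ∃ k, LC M A f t k ∧
      ∀ z, (f z : ℝ) < t → 1 / ((j : ℝ) + 1) ≤ dist k z} := by
    intro t ht
    have ht : ¬ Good M A f t := ht
    unfold Good at ht
    push Not at ht
    obtain ⟨k, hk, δ, hδ, h⟩ := ht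
    obtain ⟨j, hj⟩ := exists_nat_one_div_lt hδ
    exact Set.mem_iUnion.2 ⟨j, k, hk, fun z hz => hj.le.trans (h z hz)⟩
  refine (Set.countable_iUnion fun j => ?_).mono h1
  have h2 : ∀ t : {t : ℝ | ∃ k, LC M A f t k ∧
      ∀ z, (f z : ℝ) < t → 1 / ((j : ℝ) + 1) ≤ dist k z}, ∃ k : Fin n → M.carrier, ∃ c ∈ C,
      LC M A f t k ∧ (∀ z, (f z : ℝ) < t → 1 / ((j : ℝ) + 1) ≤ dist k z) ∧
        Close M A (1 / ((j : ℝ) + 1) / 2) k c := by
    rintro ⟨t, k, hk, h⟩
    obtain ⟨c, hc, h'⟩ := hCd k (1 / ((j : ℝ) + 1) / 2) (by positivity)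
    exact ⟨k, c, hc, hk, h, h'⟩
  choose k c hc hk1 hk2 hk3 using h2
  have key : ∀ t t', t < t' → c t ≠ c t' := by
    intro t t' htt hcc
    have h3 := (hk3 t).trans hs hκ hA (hcc ▸ hk3 t')
    rw [add_halves] at h3
    obtain ⟨a₀, h4, h5⟩ := h3.move hs hκ hA (Eqv.refl _)
    have h6 : (f a₀ : ℝ) < t' := by
      rw [← h4 f hf]
      exact lt_of_le_of_lt ((hk1 t).le hf) htt
    have h7 := hk2 t' a₀ h6
    rw [dist_comm] at h7
    linarith
  have hinj : Function.Injective (fun t => (⟨c t, hc t⟩ : C)) := by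
    intro t t' h
    have h' : c t = c t' := congrArg Subtype.val h
    by_contra hne
    rcases lt_or_gt_of_ne hne with h3 | h3
    · exact key t t' h3 h'
    · exact key t' t h3 h'.symm
  have := hC.to_subtype
  exact Set.countable_coe_iff.1 hinj.countable

end

/-- the main step -/
theorem exists_defSet {κ : Cardinal.{u}} (hs : M.Saturated κ) (hκ : Cardinal.aleph0 < κ)
    (hω : M.OmegaStable) {A : Set M.carrier} {n : ℕ} {f : (Fin n → M.carrier) → I}
    (hf : Form M A n f) {r r' : ℝ} (hr : r < r') {a : Fin n → M.carrier} (ha : (f a : ℝ) ≤ r) :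
    ∃ D : Set (Fin n → M.carrier), M.DefSet A D ∧ a ∈ D ∧ ∀ b ∈ D, (f b : ℝ) < r' := by
  obtain ⟨φ, hφ⟩ := hf
  obtain ⟨A₀, h1, h2, h3⟩ := φ.exists_countable
  have hf₀ : Form M A₀ n f := h3.congr hφ
  have hdense := (countable_bad hs hκ hω h2 hf₀).dense_compl ℝ
  obtain ⟨t, ht, ht1, ht2⟩ := hdense.exists_between hr
  have hg : Good M A₀ f t := not_not.1 ht
  have hat : (f a : ℝ) < t := lt_of_le_of_lt ha ht1
  refine ⟨closure {y | (f y : ℝ) < t}, ⟨isClosed_closure, ?_⟩, subset_closure hat, ?_⟩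
  · intro ε hε
    obtain ⟨ψ, hψ⟩ := defPred_of_good hs hκ h2 hf₀ ⟨a, hat⟩ hg ε hε
    obtain ⟨ψ', hψ'⟩ := (Form.ev ψ).mono h1
    exact ⟨ψ', fun x => by rw [hψ']; exact hψ x⟩
  · intro b hb
    refine lt_of_le_of_lt (b := t) ?_ ht2
    -- `b` realises the closed condition
    obtain ⟨z, hz⟩ := satE (A := A₀ ∪ Set.range b) (n := n) hs
      (mk_lt_of_countable hκ (h2.union (Set.countable_range b)))
      (fun (i : Bool) (z : Fin n → M.carrier) => if i then M.dIn b z else cut t (f z)) (by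
        intro i
        cases i
        · exact ((hf₀.mono Set.subset_union_left).conn1 (continuous_cut t)).congr (fun x => by simp)
        · refine (Form.plug (A := A₀) (B := A₀ ∪ Set.range b) Form.distb Set.subset_union_left b
            (fun i => Or.inr ⟨i, rfl⟩)).congr (fun x => ?_)
          simp only [Fin.append_left, Fin.append_right, if_true]) (by
        intro s ε hε
        obtain ⟨z, hz, hd⟩ := Metric.mem_closure_iff.1 hb ε hε
        refine ⟨z, fun i _ => ?_⟩
        cases i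
        · have hz : (f z : ℝ) < t := hz
          have : cut t (f z) = 0 := cut_eq_zero.2 hz.le
          simp [this, hε.le]
        · simp only [if_true]
          rw [M.coe_dIn]
          exact hd.le)
    have h4 := hz true
    have h5 := hz false
    simp only [if_true] at h4
    simp only [Bool.false_eq_true, if_false] at h5
    have h6 : dist b z = 0 := by rw [← M.coe_dIn, h4]; rfl
    rw [dist_eq_zero.1 h6]
    exact cut_eq_zero.1 h5

/-- `ω`-stable theories have enough definable sets. -/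
theorem enough {κ : Cardinal.{u}} (hs : M.Saturated κ) (hκ : Cardinal.aleph0 < κ)
    (hω : M.OmegaStable) (A : Set M.carrier) (hA : Cardinal.mk A < κ) (n : ℕ)
    (p q : Fm L A n → I) (hp : p ∈ M.types A n) (hpq : p ≠ q) :
    ∃ D : Set (Fin n → M.carrier), M.DefSet A D ∧ (∃ a ∈ D, M.Realizes a p) ∧
      ∀ b ∈ D, ¬ M.Realizes b q := by
  obtain ⟨a, ha⟩ := exists_realizes hs hA hp
  obtain ⟨φ, hφ⟩ := Function.ne_iff.1 hpq
  rcases lt_or_gt_of_ne hφ with h | h
  · obtain ⟨D, h1, h2, h3⟩ := exists_defSet hs hκ hω (Form.ev φ) (r := p φ) (r' := q φ) h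
      (a := a) (le_of_eq (by rw [ha φ]))
    refine ⟨D, h1, ⟨a, h2, ha⟩, fun b hb hbq => ?_⟩
    have := h3 b hb
    rw [hbq φ] at this
    exact lt_irrefl _ this
  · have h' : (q φ : ℝ) < p φ := h
    obtain ⟨D, h1, h2, h3⟩ := exists_defSet hs hκ hω
      ((Form.ev φ).conn1 (c := unitInterval.symm) unitInterval.continuous_symm)
      (r := 1 - p φ) (r' := 1 - q φ) (by linarith)
      (a := a) (le_of_eq (by rw [ha φ]; rfl))
    refine ⟨D, h1, ⟨a, h2, ha⟩, fun b hb hbq => ?_⟩
    have := h3 b hb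
    rw [hbq φ] at this
    exact lt_irrefl _ this

end Pool.Agent.H813.CL
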