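import Pool.Agent.H813.CL.Defs

/-!
# Theories: completeness, stability, enough d-definable sets
-/

set_option autoImplicit false

open scoped unitInterval

noncomputable section

namespace Pool.Agent.H813.CL

/-- A theory: a set of sentences `φ`, standing for the conditions `φ = 0`. -/
abbrev Theory (L : Sig) : Type := Set (Fm.{0} L Empty 0)

/-- The value of a sentence in `M`. -/
def Str.sval {L : Sig} (M : Str.{0} L) (φ : Fm.{0} L Empty 0) : I := φ.val M Empty.elim Fin.elim0

/-- `M` is a model of `T`. -/
def Str.Models {L : Sig} (M : Str.{0} L) (T : Theory L) : Prop := ∀ φ ∈ T, M.sval φ = 0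

/-- `T` is complete: it has a model, and every sentence has the same value in all models of `T`. -/
def Theory.Complete {L : Sig} (T : Theory L) : Prop :=
  (∃ M : Str.{0} L, M.Models T) ∧
    ∀ M N : Str.{0} L, M.Models T → N.Models T → ∀ φ : Fm.{0} L Empty 0, M.sval φ = N.sval φ

/-- `T` is stable: every formula `φ(x, y)` (`x`, `y` tuples) is stable, i.e. for all `ε > 0` no model of
`T` contains tuples `a_0, a_1, …` and `b_0, b_1, …` such that `|φ(a_i, b_j) - φ(a_j, b_i)| ≥ ε` for
all `i < j`. -/
def Theory.Stable {L : Sig} (T : Theory L) : Prop :=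
  ∀ (m n : ℕ) (φ : Fm.{0} L Empty (m + n)) (ε : ℝ), 0 < ε → ∀ N : Str.{0} L, N.Models T →
    ¬ ∃ (a : ℕ → Fin m → N.carrier) (b : ℕ → Fin n → N.carrier), ∀ i j : ℕ, i < j →
      ε ≤ |(φ.val N Empty.elim (Fin.append (a i) (b j)) : ℝ) -
        φ.val N Empty.elim (Fin.append (a j) (b i))|

/-- Over every set of at most `lam` parameters in a model of `T` there are at most `lam` complete
types, in any number of variables (this is stronger than `lam`-stability, which asks for density
character at most `lam` for the metric on types). -/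
def Theory.TypeBound {L : Sig} (T : Theory L) (lam : Cardinal.{0}) : Prop :=
  ∀ N : Str.{0} L, N.Models T → ∀ A : Set N.carrier, Cardinal.mk A ≤ lam → ∀ n : ℕ,
    Cardinal.mk (N.types A n) ≤ lam

/-- `T` has enough d-definable sets: for every model `M`, every `A ⊆ M`, every `n` and every complete
`n`-type `p` over `A`, the set of the realisations of `p` in `M` is an intersection of sets which are
d-definable in `M` over `A`. -/
def Theory.EnoughDDefinable {L : Sig} (T : Theory L) : Prop :=
  ∀ M : Str.{0} L, M.Models T → ∀ (A : Set M.carrier) (n : ℕ), ∀ p ∈ M.types A n,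
    ∃ 𝒟 : Set (Set (Fin n → M.carrier)), (∀ D ∈ 𝒟, M.DefSet A D) ∧ {a | M.Realizes a p} = ⋂₀ 𝒟

end Pool.Agent.H813.CL
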