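import Pool.Agent.H813.CL.Sat
import Pool.Agent.H813.CL.Theory

/-!
# The unit interval with the discrete metric and the predicate `x ↦ x`
-/

set_option autoImplicit false

open scoped unitInterval

noncomputable section

namespace Pool.Agent.H813.CL.Ex

open Pool.Agent.H813.CL

/-- The signature with one unary predicate symbol. -/
def Lx : Sig where
  Fn := Empty
  arF := Empty.elim
  modF := fun f => f.elim
  modF_pos := fun f => f.elim
  Rel := Unit
  arR := fun _ => 1
  modR := fun _ ε => ε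
  modR_pos := fun _ _ h => h

/-- the predicate -/
def Q (N : Str.{0} Lx) (x : N.carrier) : I := N.rel () (fun _ => x)

/-- the metric has values 0, 1 and the predicate has dense image, avoiding any finite set -/
def IsGood (N : Str.{0} Lx) : Prop :=
  (∀ x y : N.carrier, x ≠ y → dist x y = 1) ∧
    ∀ (r : I) (ε : ℝ), 0 < ε → ∀ (k : ℕ) (x : Fin k → N.carrier),
      ∃ y : N.carrier, (∀ i, y ≠ x i) ∧ |(Q N y : ℝ) - r| < ε

/-- the valuations `e`, `e'` have the same equalities and almost the same values of the predicate -/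
def Sim (N N' : Str.{0} Lx) (δ : ℝ) {Z : Type} (e : Z → N.carrier) (e' : Z → N'.carrier) : Prop :=
  (∀ z w, e z = e w ↔ e' z = e' w) ∧ ∀ z, |(Q N (e z) : ℝ) - Q N' (e' z)| < δ

theorem Sim.symm {N N' : Str.{0} Lx} {δ : ℝ} {Z : Type} {e : Z → N.carrier} {e' : Z → N'.carrier}
    (h : Sim N N' δ e e') : Sim N' N δ e' e :=
  ⟨fun z w => (h.1 z w).symm, fun z => by rw [abs_sub_comm]; exact h.2 z⟩

theorem Sim.mono {N N' : Str.{0} Lx} {δ δ' : ℝ} {Z : Type} {e : Z → N.carrier}
    {e' : Z → N'.carrier} (h : Sim N N' δ e e') (hd : δ ≤ δ') : Sim N N' δ' e e' :=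
  ⟨h.1, fun z => (h.2 z).trans_le hd⟩

theorem cases_ext {A : Type} {n : ℕ} (z : A ⊕ Fin (n + 1)) :
    (∃ w : A ⊕ Fin n, z = Sum.map id Fin.castSucc w) ∨ z = Sum.inr (Fin.last n) := by
  rcases z with a | i
  · exact Or.inl ⟨Sum.inl a, rfl⟩
  · refine Fin.lastCases (Or.inr rfl) (fun j => Or.inl ⟨Sum.inr j, rfl⟩) i

theorem Sim.extend {N N' : Str.{0} Lx} (hN' : IsGood N') {δ : ℝ} (hδ : 0 < δ) {A : Type} [Finite A]
    {n : ℕ} {v : A → N.carrier} {v' : A → N'.carrier} {x : Fin n → N.carrier}
    {x' : Fin n → N'.carrier} (h : Sim N N' δ (Sum.elim v x) (Sum.elim v' x')) (y : N.carrier) :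
    ∃ y' : N'.carrier, Sim N N' δ (Sum.elim v (Fin.snoc (α := fun _ => N.carrier) x y))
      (Sum.elim v' (Fin.snoc (α := fun _ => N'.carrier) x' y')) := by
  have main : ∀ y' : N'.carrier, (∀ z : A ⊕ Fin n, Sum.elim v x z = y ↔ Sum.elim v' x' z = y') →
      |(Q N y : ℝ) - Q N' y'| < δ → Sim N N' δ
      (Sum.elim v (Fin.snoc (α := fun _ => N.carrier) x y))
      (Sum.elim v' (Fin.snoc (α := fun _ => N'.carrier) x' y')) := by
    intro y' h1 h2
    have hl : Sum.elim v (Fin.snoc (α := fun _ => N.carrier) x y) (Sum.inr (Fin.last n)) = y := by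
      simp
    have hl' : Sum.elim v' (Fin.snoc (α := fun _ => N'.carrier) x' y') (Sum.inr (Fin.last n)) =
        y' := by simp
    constructor
    · intro z w
      rcases cases_ext z with ⟨z, rfl⟩ | rfl <;> rcases cases_ext w with ⟨w, rfl⟩ | rfl
      · rw [elim_castSucc, elim_castSucc, elim_castSucc, elim_castSucc]
        exact h.1 z w
      · rw [elim_castSucc, elim_castSucc, hl, hl']
        exact h1 z
      · rw [elim_castSucc, elim_castSucc, hl, hl', eq_comm, h1 w, eq_comm]
      · simp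
    · intro z
      rcases cases_ext z with ⟨z, rfl⟩ | rfl
      · rw [elim_castSucc, elim_castSucc]
        exact h.2 z
      · rw [hl, hl']
        exact h2
  by_cases hy : ∃ z : A ⊕ Fin n, Sum.elim v x z = y
  · obtain ⟨z, rfl⟩ := hy
    exact ⟨Sum.elim v' x' z, main _ (fun w => h.1 w z) (h.2 z)⟩
  · push Not at hy
    obtain ⟨k, ⟨g⟩⟩ := Finite.exists_equiv_fin (A ⊕ Fin n)
    obtain ⟨y', h3, h4⟩ := hN'.2 (Q N y) δ hδ k (fun i => Sum.elim v' x' (g.symm i))
    refine ⟨y', main _ (fun z => ?_) (by rw [abs_sub_comm]; exact h4)⟩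
    constructor
    · intro h5
      exact absurd h5 (hy z)
    · intro h5
      have := h3 (g z)
      simp only [Equiv.symm_apply_apply] at this
      exact absurd h5.symm this

theorem iInf_close {X Y : Type} {f : X → I} {g : Y → I} {ε : ℝ} (hε : 0 ≤ ε)
    (h : ∀ x, ∃ y, |(f x : ℝ) - g y| ≤ ε) : ((⨅ y, g y : I) : ℝ) ≤ (⨅ x, f x : I) + ε := by
  by_contra hc
  push Not at hc
  have h0 : 0 ≤ ((⨅ x, f x : I) : ℝ) := (⨅ x, f x : I).2.1
  have h1 : ((⨅ y, g y : I) : ℝ) ≤ 1 := (⨅ y, g y : I).2.2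
  have hr : ((⨅ y, g y : I) : ℝ) - ε ∈ I := ⟨by linarith, by linarith⟩
  have h2 : (⨅ x, f x : I) < ⟨_, hr⟩ := by
    show ((⨅ x, f x : I) : ℝ) < ((⨅ y, g y : I) : ℝ) - ε
    linarith
  obtain ⟨x, hx⟩ := iInf_lt_iff.1 h2
  obtain ⟨y, hy⟩ := h x
  have hx' : (f x : ℝ) < ((⨅ y, g y : I) : ℝ) - ε := hx
  have hy' : ((⨅ y, g y : I) : ℝ) ≤ g y := iInf_le g y
  have := (abs_le.1 hy).1
  linarith

theorem iSup_close {X Y : Type} {f : X → I} {g : Y → I} {ε : ℝ} (hε : 0 ≤ ε)
    (h : ∀ x, ∃ y, |(f x : ℝ) - g y| ≤ ε) : ((⨆ x, f x : I) : ℝ) ≤ (⨆ y, g y : I) + ε := by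
  by_contra hc
  push Not at hc
  have h0 : 0 ≤ ((⨆ y, g y : I) : ℝ) := (⨆ y, g y : I).2.1
  have h1 : ((⨆ x, f x : I) : ℝ) ≤ 1 := (⨆ x, f x : I).2.2
  have hr : ((⨆ y, g y : I) : ℝ) + ε ∈ I := ⟨by linarith, by linarith⟩
  have h2 : (⟨_, hr⟩ : I) < (⨆ x, f x : I) := by
    show ((⨆ y, g y : I) : ℝ) + ε < ((⨆ x, f x : I) : ℝ)
    linarith
  obtain ⟨x, hx⟩ := lt_iSup_iff.1 h2
  obtain ⟨y, hy⟩ := h x
  have hx' : ((⨆ y, g y : I) : ℝ) + ε < (f x : ℝ) := hx
  have hy' : (g y : ℝ) ≤ (⨆ y, g y : I) := le_iSup g y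
  have := (abs_le.1 hy).2
  linarith

theorem exists_pos_le {k : ℕ} {δ : Fin k → ℝ} (h : ∀ i, 0 < δ i) :
    ∃ δ₀ : ℝ, 0 < δ₀ ∧ ∀ i, δ₀ ≤ δ i := by
  choose m hm using fun i => exists_nat_one_div_lt (h i)
  refine ⟨1 / ((Finset.univ.sup m : ℕ) + 1), by positivity, fun i => ?_⟩
  refine le_trans ?_ (hm i).le
  have h1 : m i ≤ Finset.univ.sup m := Finset.le_sup (Finset.mem_univ i)
  have h2 : (m i : ℝ) ≤ (Finset.univ.sup m : ℕ) := by exact_mod_cast h1
  exact one_div_le_one_div_of_le (by positivity) (by linarith)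

theorem tm_var {V : Type} (t : Tm.{0} Lx V) : ∃ z, t = .var z := by
  cases t with
  | var z => exact ⟨z, rfl⟩
  | fn f _ => exact Empty.elim f

/-- the values of a formula at similar valuations are close -/
theorem key {A : Type} [Finite A] {n : ℕ} (φ : Fm.{0} Lx A n) : ∀ ε : ℝ, 0 < ε → ∃ δ : ℝ, 0 < δ ∧
    ∀ (N N' : Str.{0} Lx), IsGood N → IsGood N' → ∀ (v : A → N.carrier) (v' : A → N'.carrier)
      (x : Fin n → N.carrier) (x' : Fin n → N'.carrier),
      Sim N N' δ (Sum.elim v x) (Sum.elim v' x') →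
        |(φ.val N v x : ℝ) - φ.val N' v' x'| ≤ ε := by
  induction φ with
  | dist s t =>
    intro ε hε
    refine ⟨1, one_pos, fun N N' hN hN' v v' x x' h => ?_⟩
    obtain ⟨z, rfl⟩ := tm_var s
    obtain ⟨w, rfl⟩ := tm_var t
    have h1 : dist (Sum.elim v x z) (Sum.elim v x w) = dist (Sum.elim v' x' z) (Sum.elim v' x' w) := by
      by_cases hzw : Sum.elim v x z = Sum.elim v x w
      · rw [hzw, (h.1 z w).1 hzw, dist_self, dist_self]
      · rw [hN.1 _ _ hzw, hN'.1 _ _ (fun h2 => hzw ((h.1 z w).2 h2))]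
    show |dist (Sum.elim v x z) (Sum.elim v x w) - dist (Sum.elim v' x' z) (Sum.elim v' x' w)| ≤ ε
    rw [h1, sub_self, abs_zero]
    exact hε.le
  | rel R t =>
    intro ε hε
    refine ⟨ε, hε, fun N N' hN hN' v v' x x' h => ?_⟩
    obtain ⟨z, hz⟩ := tm_var (t (0 : Fin 1))
    have h1 : ∀ (N : Str.{0} Lx) (v : _ → N.carrier) (x : _ → N.carrier),
        (Fm.rel R t : Fm.{0} Lx _ _).val N v x = Q N (Sum.elim v x z) := by
      intro N v x
      show N.rel R _ = N.rel () _
      congr 1
      funext i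
      have hi : i = (0 : Fin 1) := Subsingleton.elim (α := Fin 1) i 0
      rw [hi, hz]
      rfl
    rw [h1, h1]
    exact (h.2 z).le
  | conn k c φ ih =>
    intro ε hε
    have hc := CompactSpace.uniformContinuous_of_continuous c.continuous
    obtain ⟨η, hη, hc⟩ := Metric.uniformContinuous_iff.1 hc ε hε
    choose δ hδ h using fun i => ih i (η / 2) (by positivity)
    obtain ⟨δ₀, h1, h2⟩ := exists_pos_le hδ
    refine ⟨δ₀, h1, fun N N' hN hN' v v' x x' hs => ?_⟩
    have h3 := hc (a := fun i => (φ i).val N v x) (b := fun i => (φ i).val N' v' x') (by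
      rw [dist_pi_lt_iff hη]
      intro i
      have := h i N N' hN hN' v v' x x' (hs.mono (h2 i))
      have h4 : dist ((φ i).val N v x) ((φ i).val N' v' x') ≤ η / 2 := this
      linarith)
    exact h3.le
  | inf φ ih =>
    intro ε hε
    obtain ⟨δ, hδ, h⟩ := ih ε hε
    refine ⟨δ, hδ, fun N N' hN hN' v v' x x' hs => ?_⟩
    rw [abs_le]
    constructor
    · have := iInf_close (f := fun a => φ.val N v (Fin.snoc (α := fun _ => N.carrier) x a))
        (g := fun a => φ.val N' v' (Fin.snoc (α := fun _ => N'.carrier) x' a)) hε.le (by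
          intro y
          obtain ⟨y', hy'⟩ := hs.extend hN' hδ y
          exact ⟨y', h N N' hN hN' v v' _ _ hy'⟩)
      show -ε ≤ ((⨅ a, φ.val N v (Fin.snoc (α := fun _ => N.carrier) x a) : I) : ℝ) -
        (⨅ a, φ.val N' v' (Fin.snoc (α := fun _ => N'.carrier) x' a) : I)
      linarith
    · have := iInf_close (g := fun a => φ.val N v (Fin.snoc (α := fun _ => N.carrier) x a))
        (f := fun a => φ.val N' v' (Fin.snoc (α := fun _ => N'.carrier) x' a)) hε.le (by
          intro y
          obtain ⟨y', hy'⟩ := hs.symm.extend hN hδ y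
          exact ⟨y', by rw [abs_sub_comm]; exact h N N' hN hN' v v' _ _ hy'.symm⟩)
      show ((⨅ a, φ.val N v (Fin.snoc (α := fun _ => N.carrier) x a) : I) : ℝ) -
        (⨅ a, φ.val N' v' (Fin.snoc (α := fun _ => N'.carrier) x' a) : I) ≤ ε
      linarith
  | sup φ ih =>
    intro ε hε
    obtain ⟨δ, hδ, h⟩ := ih ε hε
    refine ⟨δ, hδ, fun N N' hN hN' v v' x x' hs => ?_⟩
    rw [abs_le]
    constructor
    · have := iSup_close (g := fun a => φ.val N v (Fin.snoc (α := fun _ => N.carrier) x a))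
        (f := fun a => φ.val N' v' (Fin.snoc (α := fun _ => N'.carrier) x' a)) hε.le (by
          intro y
          obtain ⟨y', hy'⟩ := hs.symm.extend hN hδ y
          exact ⟨y', by rw [abs_sub_comm]; exact h N N' hN hN' v v' _ _ hy'.symm⟩)
      show -ε ≤ ((⨆ a, φ.val N v (Fin.snoc (α := fun _ => N.carrier) x a) : I) : ℝ) -
        (⨆ a, φ.val N' v' (Fin.snoc (α := fun _ => N'.carrier) x' a) : I)
      linarith
    · have := iSup_close (f := fun a => φ.val N v (Fin.snoc (α := fun _ => N.carrier) x a))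
        (g := fun a => φ.val N' v' (Fin.snoc (α := fun _ => N'.carrier) x' a)) hε.le (by
          intro y
          obtain ⟨y', hy'⟩ := hs.extend hN' hδ y
          exact ⟨y', h N N' hN hN' v v' _ _ hy'⟩)
      show ((⨆ a, φ.val N v (Fin.snoc (α := fun _ => N.carrier) x a) : I) : ℝ) -
        (⨆ a, φ.val N' v' (Fin.snoc (α := fun _ => N'.carrier) x' a) : I) ≤ ε
      linarith

/-! ### The structure and its theory -/

/-- The points of the structure: the unit interval. -/
def Pt : Type := {x : ℝ // x ∈ I}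

open Classical in
/-- The discrete metric. -/
instance : MetricSpace Pt where
  dist x y := if x = y then 0 else 1
  dist_self x := by simp
  dist_comm x y := by simp only [eq_comm]
  dist_triangle x y z := by
    by_cases h1 : x = y
    · subst h1; simp
    · by_cases h2 : y = z
      · subst h2; simp
      · simp only [h1, h2, if_false]
        split_ifs <;> norm_num
  eq_of_dist_eq_zero {x y} h := by
    by_contra hne
    simp [hne] at h

theorem Pt.dist_ne {x y : Pt} (h : x ≠ y) : dist x y = 1 := if_neg h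

theorem Pt.eq_of_dist_lt {x y : Pt} (h : dist x y < 1) : x = y := by
  by_contra hne
  rw [Pt.dist_ne hne] at h
  exact lt_irrefl _ h

/-- The unit interval with the discrete metric and the predicate `x ↦ x`. -/
def M0 : Str.{0} Lx where
  carrier := Pt
  complete := by
    apply Metric.complete_of_cauchySeq_tendsto
    intro u hu
    obtain ⟨N, hN⟩ := Metric.cauchySeq_iff'.1 hu 1 one_pos
    refine ⟨u N, ?_⟩
    rw [Metric.tendsto_atTop]
    intro ε hε
    refine ⟨N, fun n hn => ?_⟩
    rw [Pt.eq_of_dist_lt (hN n hn), dist_self]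
    exact hε
  nonempty := ⟨⟨0, by norm_num⟩⟩
  dist_le x y := by
    by_cases h : x = y
    · rw [h, dist_self]; exact zero_le_one
    · rw [Pt.dist_ne h]
  fn f := Empty.elim f
  rel _ x := ⟨(x (0 : Fin 1)).1, (x (0 : Fin 1)).2⟩
  fn_unif f := Empty.elim f
  rel_unif R ε hε x y h := by
    have h1 : dist (x (0 : Fin 1)) (y (0 : Fin 1)) < ε := h (0 : Fin 1)
    show |((x (0 : Fin 1)).1 : ℝ) - (y (0 : Fin 1)).1| ≤ ε
    by_cases h2 : x (0 : Fin 1) = y (0 : Fin 1)
    · rw [h2, sub_self, abs_zero]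
      exact hε.le
    · rw [Pt.dist_ne h2] at h1
      have h3 := (x (0 : Fin 1)).2
      have h4 := (y (0 : Fin 1)).2
      refine le_trans ?_ h1.le
      rw [abs_le]
      constructor <;> linarith [h3.1, h3.2, h4.1, h4.2]

theorem Q_M0 (x : Pt) : (Q M0 x : ℝ) = x.1 := rfl

theorem good_M0 : IsGood M0 := by
  refine ⟨fun x y h => Pt.dist_ne h, fun r ε hε k x => ?_⟩
  have h1 : (Set.Icc (max 0 ((r : ℝ) - ε / 2)) (min 1 (r + ε / 2))).Infinite := by
    apply Set.Icc_infinite
    rw [max_lt_iff, lt_min_iff, lt_min_iff]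
    have := r.2.1
    have := r.2.2
    refine ⟨⟨one_pos, by linarith⟩, by linarith, by linarith⟩
  obtain ⟨s, hs, hs'⟩ := h1.exists_notMem_finset (Finset.univ.image (fun i => (x i).1))
  have hsI : s ∈ I := ⟨(le_max_left _ _).trans hs.1, hs.2.trans (min_le_left _ _)⟩
  refine ⟨⟨s, hsI⟩, fun i hi => ?_, ?_⟩
  · apply hs'
    rw [Finset.mem_image]
    exact ⟨i, Finset.mem_univ _, by rw [← hi]⟩
  · show |s - r| < ε
    have h2 := (le_max_right _ _).trans hs.1
    have h3 := hs.2.trans (min_le_right _ _)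
    rw [abs_lt]
    constructor <;> linarith

/-- The complete theory of `M0`. -/
def T0 : Theory Lx := {φ | M0.sval φ = 0}

theorem models_M0 : M0.Models T0 := fun _ h => h

/-! ### Models of the theory are good -/

/-- universal closure -/
def sups {L : Sig} {A : Type} : (n : ℕ) → Fm.{0} L A n → Fm.{0} L A 0
  | 0, φ => φ
  | n + 1, φ => sups n (.sup φ)

theorem sups_eq_zero {L : Sig} {A : Type} (M : Str.{0} L) (v : A → M.carrier) {n : ℕ}
    (φ : Fm.{0} L A n) : (sups n φ).val M v Fin.elim0 = 0 ↔ ∀ x, φ.val M v x = 0 := by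
  induction n with
  | zero =>
    constructor
    · intro h x
      have : x = Fin.elim0 := by funext i; exact i.elim0
      rw [this]; exact h
    · intro h; exact h _
  | succ n ih =>
    rw [sups, ih]
    constructor
    · intro h x
      have h1 := h (Fin.init x)
      have h2 : φ.val M v (Fin.snoc (α := fun _ => M.carrier) (Fin.init x) (x (Fin.last n))) ≤
          (Fm.sup φ).val M v (Fin.init x) :=
        le_iSup (fun a => φ.val M v (Fin.snoc (α := fun _ => M.carrier) (Fin.init x) a)) _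
      rw [h1] at h2
      have h3 : (Fin.snoc (α := fun _ => M.carrier) (Fin.init x) (x (Fin.last n)) :
          Fin (n + 1) → M.carrier) = x := Fin.snoc_init_self x
      rw [h3] at h2
      exact le_antisymm h2 (bot_eq0 ▸ bot_le)
    · intro h x
      apply le_antisymm _ (bot_eq0 ▸ bot_le)
      refine iSup_le fun a => ?_
      rw [h]

/-- `min z (1 - z)` -/
def hat (z : I) : I := z ⊓ unitInterval.symm z

theorem continuous_hat : Continuous hat :=
  continuous_id.inf unitInterval.continuous_symm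

/-- the sentence saying that the metric has values `0`, `1` -/
def phi1 : Fm.{0} Lx Empty 2 :=
  .conn 1 ⟨fun z => hat (z 0), continuous_hat.comp (continuous_apply 0)⟩
    (fun _ => .dist (.var (Sum.inr 0)) (.var (Sum.inr 1)))

theorem phi1_val (N : Str.{0} Lx) (x : Fin 2 → N.carrier) :
    phi1.val N Empty.elim x = hat (N.dI (x 0) (x 1)) := rfl

/-- the connective of `phi2` -/
def conn2 (k : ℕ) (r : I) (z : Fin (k + 1) → I) : I :=
  adiff (z (Fin.last k)) r ⊔ Finset.univ.sup (fun i : Fin k => unitInterval.symm (z (Fin.castSucc i)))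

theorem continuous_conn2 (k : ℕ) (r : I) : Continuous (conn2 k r) := by
  refine Continuous.sup ?_ ?_
  · have h1 : Continuous (fun z : Fin (k + 1) → I => ((z (Fin.last k), r) : I × I)) :=
      (continuous_apply _).prodMk continuous_const
    exact continuous_adiff.comp h1
  · exact Continuous.finset_sup_apply (fun i _ =>
      unitInterval.continuous_symm.comp (continuous_apply _))

/-- the predicate at the last variable -/
def relF (k : ℕ) : Fm.{0} Lx Empty (k + 1) :=
  .rel (show Lx.Rel from ()) (fun _ => .var (Sum.inr (Fin.last k)))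

/-- the distance of the variable `i` and the last variable -/
def distF (k : ℕ) (i : Fin k) : Fm.{0} Lx Empty (k + 1) :=
  .dist (.var (Sum.inr (Fin.castSucc i))) (.var (Sum.inr (Fin.last k)))

theorem relF_val (k : ℕ) (N : Str.{0} Lx) (x : Fin k → N.carrier) (y : N.carrier) :
    (relF k).val N Empty.elim (Fin.snoc (α := fun _ => N.carrier) x y) = Q N y := by
  show N.rel () (fun _ => Fin.snoc (α := fun _ => N.carrier) x y (Fin.last k)) = N.rel () (fun _ => y)
  rw [Fin.snoc_last]

theorem distF_val (k : ℕ) (i : Fin k) (N : Str.{0} Lx) (x : Fin k → N.carrier) (y : N.carrier) :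
    (distF k i).val N Empty.elim (Fin.snoc (α := fun _ => N.carrier) x y) = N.dI (x i) y := by
  show N.dI (Fin.snoc (α := fun _ => N.carrier) x y (Fin.castSucc i))
    (Fin.snoc (α := fun _ => N.carrier) x y (Fin.last k)) = _
  rw [Fin.snoc_last, Fin.snoc_castSucc]

/-- the subformulas of `phi2` -/
def sub2 (k : ℕ) (i : Fin (k + 1)) : Fm.{0} Lx Empty (k + 1) :=
  Fin.lastCases (motive := fun _ => Fm.{0} Lx Empty (k + 1)) (relF k) (distF k) i

theorem sub2_last (k : ℕ) : sub2 k (Fin.last k) = relF k := Fin.lastCases_last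

theorem sub2_castSucc (k : ℕ) (i : Fin k) : sub2 k (Fin.castSucc i) = distF k i :=
  Fin.lastCases_castSucc ..

/-- the formula saying that `y` is not among `x_0, …, x_{k-1}` and that the predicate at `y` is close
to `r` -/
def phi2 (k : ℕ) (r : I) : Fm.{0} Lx Empty (k + 1) :=
  .conn (k + 1) ⟨conn2 k r, continuous_conn2 k r⟩ (sub2 k)

theorem phi2_val (k : ℕ) (r : I) (N : Str.{0} Lx) (x : Fin k → N.carrier) (y : N.carrier) :
    (phi2 k r).val N Empty.elim (Fin.snoc (α := fun _ => N.carrier) x y) =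
      adiff (Q N y) r ⊔ Finset.univ.sup (fun i : Fin k => unitInterval.symm (N.dI (x i) y)) := by
  show conn2 k r (fun i => (sub2 k i).val N Empty.elim
    (Fin.snoc (α := fun _ => N.carrier) x y)) = _
  unfold conn2
  simp only [sub2_last, sub2_castSucc, relF_val, distF_val]

theorem good_of_models {N : Str.{0} Lx} (hN : N.Models T0) : IsGood N := by
  constructor
  · intro x y hxy
    have h1 : M0.sval (sups 2 phi1) = 0 := by
      unfold Str.sval
      rw [sups_eq_zero]
      intro z
      rw [phi1_val]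
      by_cases h : z 0 = z 1
      · apply le_antisymm _ (bot_eq0 ▸ bot_le)
        refine inf_le_of_left_le ?_
        show dist (z 0) (z 1) ≤ 0
        rw [h, dist_self]
      · apply le_antisymm _ (bot_eq0 ▸ bot_le)
        refine inf_le_of_right_le ?_
        show 1 - dist (z 0) (z 1) ≤ 0
        rw [good_M0.1 _ _ h, sub_self]
    have h2 := hN _ h1
    unfold Str.sval at h2
    rw [sups_eq_zero] at h2
    have h3 := h2 ![x, y]
    rw [phi1_val] at h3
    have h4 : hat (N.dI x y) = 0 := h3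
    have h5 : min (dist x y) (1 - dist x y) = 0 := by
      have h6 : ((hat (N.dI x y) : I) : ℝ) = 0 := by rw [h4]; rfl
      rw [← h6]
      rcases le_total (N.dI x y) (unitInterval.symm (N.dI x y)) with h | h
      · have h' : dist x y ≤ 1 - dist x y := h
        unfold hat
        rw [inf_eq_left.2 h, min_eq_left h']
        rfl
      · have h' : 1 - dist x y ≤ dist x y := h
        unfold hat
        rw [inf_eq_right.2 h, min_eq_right h']
        rfl
    rcases min_choice (dist x y) (1 - dist x y) with h | h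
    · rw [h] at h5
      exact absurd (dist_eq_zero.1 h5) hxy
    · rw [h] at h5
      linarith
  · intro r ε hε k x
    have h1 : M0.sval (sups k (.inf (phi2 k r))) = 0 := by
      unfold Str.sval
      rw [sups_eq_zero]
      intro z
      apply le_antisymm _ (bot_eq0 ▸ bot_le)
      show (⨅ a, (phi2 k r).val M0 Empty.elim (Fin.snoc (α := fun _ => M0.carrier) z a) : I) ≤ 0
      refine le_of_forall_gt fun η hη => ?_
      rw [iInf_lt_iff]
      obtain ⟨y, hy1, hy2⟩ := good_M0.2 r η hη k z
      refine ⟨y, ?_⟩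
      rw [phi2_val, sup_lt_iff]
      refine ⟨hy2, ?_⟩
      refine lt_of_le_of_lt (Finset.sup_le fun i _ => ?_) (bot_eq0 ▸ hη)
      show 1 - dist (z i) y ≤ 0
      rw [good_M0.1 _ _ (fun h => hy1 i h.symm), sub_self]
    have h2 := hN _ h1
    unfold Str.sval at h2
    rw [sups_eq_zero] at h2
    have h3 : (⨅ a, (phi2 k r).val N Empty.elim (Fin.snoc (α := fun _ => N.carrier) x a) : I) = 0 :=
      h2 x
    have h4 : (⨅ a, (phi2 k r).val N Empty.elim (Fin.snoc (α := fun _ => N.carrier) x a) : I) <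
        ⟨min ε 1, by positivity, min_le_right _ _⟩ := by
      rw [h3]
      show (0 : ℝ) < min ε 1
      positivity
    obtain ⟨y, hy⟩ := iInf_lt_iff.1 h4
    rw [phi2_val, sup_lt_iff] at hy
    refine ⟨y, fun i hi => ?_, ?_⟩
    · have h5 : unitInterval.symm (N.dI (x i) y) ≤
          Finset.univ.sup (fun i : Fin k => unitInterval.symm (N.dI (x i) y)) :=
        Finset.le_sup (f := fun i : Fin k => unitInterval.symm (N.dI (x i) y)) (Finset.mem_univ i)
      have h6 := h5.trans_lt hy.2
      have h7 : 1 - dist (x i) y < min ε 1 := h6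
      rw [← hi, dist_self] at h7
      have := min_le_right ε 1
      linarith
    · have h5 : |(Q N y : ℝ) - r| < min ε 1 := hy.1
      exact h5.trans_le (min_le_left _ _)

/-- The theory is complete. -/
theorem complete_T0 : T0.Complete := by
  refine ⟨⟨M0, models_M0⟩, fun M N hM hN φ => ?_⟩
  apply Subtype.ext
  rw [← sub_eq_zero, ← abs_eq_zero]
  apply le_antisymm _ (abs_nonneg _)
  refine le_of_forall_pos_le_add fun ε hε => ?_
  obtain ⟨δ, hδ, h⟩ := key φ ε hε
  rw [zero_add]
  refine h M N (good_of_models hM) (good_of_models hN) _ _ _ _ ⟨?_, ?_⟩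
  · rintro (z | z)
    · exact z.elim
    · exact z.elim0
  · rintro (z | z)
    · exact z.elim
    · exact z.elim0

end Pool.Agent.H813.CL.Ex
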