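import Pool.Agent.H813.CL.Ex

/-!
# The theory of the unit interval with the discrete metric is stable and has no definable sets
-/

set_option autoImplicit false

open scoped unitInterval
open Filter

noncomputable section

namespace Pool.Agent.H813.CL.Ex

open Pool.Agent.H813.CL

/-! ### Stability -/

theorem ultra_or {X : Type} (U : Ultrafilter ℕ) (f g : ℕ → X) :
    (∃ c, (∀ᶠ i in (U : Filter ℕ), f i = c) ∧ ∀ᶠ j in (U : Filter ℕ), g j = c) ∨
      ∀ᶠ i in (U : Filter ℕ), ∀ᶠ j in (U : Filter ℕ), f i ≠ g j := by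
  by_cases h : ∀ᶠ i in (U : Filter ℕ), ∀ᶠ j in (U : Filter ℕ), f i ≠ g j
  · exact Or.inr h
  · left
    rw [← Ultrafilter.eventually_not] at h
    have h1 : ∀ᶠ i in (U : Filter ℕ), ∀ᶠ j in (U : Filter ℕ), f i = g j := by
      filter_upwards [h] with i hi
      rw [← Ultrafilter.eventually_not] at hi
      filter_upwards [hi] with j hj
      exact not_not.1 hj
    obtain ⟨i₀, hi₀⟩ := h1.exists
    refine ⟨f i₀, ?_, ?_⟩
    · filter_upwards [h1] with i hi
      obtain ⟨j, hj1, hj2⟩ := (hi.and hi₀).exists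
      rw [hj1, hj2]
    · filter_upwards [hi₀] with j hj
      exact hj.symm

theorem ultra_pred (U : Ultrafilter ℕ) (P : ℕ → Prop) :
    ∀ᶠ i in (U : Filter ℕ), ∀ᶠ j in (U : Filter ℕ), (P i ↔ P j) := by
  by_cases h : ∀ᶠ i in (U : Filter ℕ), P i
  · filter_upwards [h] with i hi
    filter_upwards [h] with j hj
    exact ⟨fun _ => hj, fun _ => hi⟩
  · rw [← Ultrafilter.eventually_not] at h
    filter_upwards [h] with i hi
    filter_upwards [h] with j hj
    exact ⟨fun h => absurd h hi, fun h => absurd h hj⟩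

theorem ultra_close (U : Ultrafilter ℕ) (f : ℕ → I) {δ : ℝ} (hδ : 0 < δ) :
    ∀ᶠ i in (U : Filter ℕ), ∀ᶠ j in (U : Filter ℕ), |(f i : ℝ) - f j| < δ := by
  obtain ⟨l, -, hl⟩ := isCompact_univ.ultrafilter_le_nhds (U.map f) (by simp)
  have h1 : ∀ᶠ i in (U : Filter ℕ), dist (f i) l < δ / 2 :=
    (show Tendsto f U (nhds l) from hl) (Metric.ball_mem_nhds l (by positivity))
  filter_upwards [h1] with i hi
  filter_upwards [h1] with j hj
  have h2 : dist (f i) (f j) < δ := by
    have := dist_triangle_right (f i) (f j) l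
    linarith
  exact h2

/-- cross equalities -/
theorem ultra_cross {X : Type} (U : Ultrafilter ℕ) (f g : ℕ → X) :
    ∀ᶠ i in (U : Filter ℕ), ∀ᶠ j in (U : Filter ℕ), (f i = g j ↔ f j = g i) := by
  rcases ultra_or U f g with ⟨c, h1, h2⟩ | h
  · filter_upwards [h1, h2] with i hi hi'
    filter_upwards [h1, h2] with j hj hj'
    rw [hi, hi', hj, hj']
  · rcases ultra_or U g f with ⟨c, h1, h2⟩ | h'
    · filter_upwards [h1, h2] with i hi hi'
      filter_upwards [h1, h2] with j hj hj'
      rw [hi, hi', hj, hj']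
    · filter_upwards [h, h'] with i hi hi'
      filter_upwards [hi, hi'] with j hj hj'
      exact ⟨fun h => absurd h hj, fun h => absurd h.symm hj'⟩

theorem stable_T0 : T0.Stable := by
  intro m n φ ε hε N hN
  rintro ⟨a, b, hab⟩
  obtain ⟨δ, hδ, h⟩ := key φ (ε / 2) (by positivity)
  have hg := good_of_models hN
  have h1 : ∀ᶠ i in (hyperfilter ℕ : Filter ℕ), ∀ᶠ j in (hyperfilter ℕ : Filter ℕ),
      Sim N N δ (Sum.elim (Empty.elim : Empty → N.carrier) (Fin.append (a i) (b j)))
        (Sum.elim (Empty.elim : Empty → N.carrier) (Fin.append (a j) (b i))) := by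
    have e1 : ∀ z w : Fin (m + n), ∀ᶠ i in (hyperfilter ℕ : Filter ℕ),
        ∀ᶠ j in (hyperfilter ℕ : Filter ℕ), (Fin.append (a i) (b j) z = Fin.append (a i) (b j) w ↔
          Fin.append (a j) (b i) z = Fin.append (a j) (b i) w) := by
      intro z w
      refine Fin.addCases (fun k => ?_) (fun l => ?_) z <;>
        refine Fin.addCases (fun k' => ?_) (fun l' => ?_) w
      · simp only [Fin.append_left]
        exact ultra_pred _ (fun i => a i k = a i k')
      · simp only [Fin.append_left, Fin.append_right]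
        exact ultra_cross _ (fun i => a i k) (fun i => b i l')
      · simp only [Fin.append_left, Fin.append_right]
        have := ultra_cross (hyperfilter ℕ) (fun i => a i k') (fun i => b i l)
        filter_upwards [this] with i hi
        filter_upwards [hi] with j hj
        rw [eq_comm, hj, eq_comm]
      · simp only [Fin.append_right]
        have := ultra_pred (hyperfilter ℕ) (fun i => b i l = b i l')
        filter_upwards [this] with i hi
        filter_upwards [hi] with j hj
        exact hj.symm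
    have e2 : ∀ z : Fin (m + n), ∀ᶠ i in (hyperfilter ℕ : Filter ℕ),
        ∀ᶠ j in (hyperfilter ℕ : Filter ℕ), |(Q N (Fin.append (a i) (b j) z) : ℝ) -
          Q N (Fin.append (a j) (b i) z)| < δ := by
      intro z
      refine Fin.addCases (fun k => ?_) (fun l => ?_) z
      · simp only [Fin.append_left]
        exact ultra_close _ (fun i => Q N (a i k)) hδ
      · simp only [Fin.append_right]
        have := ultra_close (hyperfilter ℕ) (fun i => Q N (b i l)) hδ
        filter_upwards [this] with i hi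
        filter_upwards [hi] with j hj
        rw [abs_sub_comm]
        exact hj
    have e1' := (eventually_all.2 fun z => eventually_all.2 fun w => e1 z w)
    have e2' := eventually_all.2 e2
    filter_upwards [e1', e2'] with i h3 h4
    filter_upwards [eventually_all.2 fun z => eventually_all.2 fun w => h3 z w,
      eventually_all.2 h4] with j h5 h6
    constructor
    · rintro (z | z) (w | w)
      · exact z.elim
      · exact z.elim
      · exact w.elim
      · exact h5 z w
    · rintro (z | z)
      · exact z.elim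
      · exact h6 z
  obtain ⟨i, hi⟩ := h1.exists
  have h2 : ∀ᶠ j in (hyperfilter ℕ : Filter ℕ), i < j := by
    apply hyperfilter_le_cofinite
    rw [Nat.cofinite_eq_atTop]
    exact eventually_gt_atTop i
  obtain ⟨j, hj, hij⟩ := (hi.and h2).exists
  have h3 := h N N hg hg _ _ _ _ hj
  have h4 := hab i j hij
  linarith

/-! ### Definable sets over the empty set -/

theorem trivial_defSet {N : Str.{0} Lx} (hN : N.Models T0) {D : Set (Fin 1 → N.carrier)}
    (hD : N.DefSet ∅ D) : D = ∅ ∨ D = Set.univ := by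
  by_contra hcon
  rw [not_or] at hcon
  obtain ⟨h1, h2⟩ := hcon
  have hne : D.Nonempty := Set.nonempty_iff_ne_empty.2 h1
  obtain ⟨b, hb⟩ := (Set.ne_univ_iff_exists_notMem D).1 h2
  obtain ⟨a, ha⟩ := hne
  have hg := good_of_models hN
  obtain ⟨φ, hφ⟩ := hD.2 (1 / 8) (by norm_num)
  obtain ⟨δ, hδ, hk⟩ := key φ (1 / 8) (by norm_num)
  have hout : ∀ x : Fin 1 → N.carrier, x ∉ D → 1 ≤ Metric.infDist x D := by
    intro x hx
    refine (Metric.le_infDist ⟨a, ha⟩).2 fun y hy => ?_
    have hxy : x 0 ≠ y 0 := by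
      intro h
      apply hx
      have : x = y := by
        funext i
        have : i = 0 := Subsingleton.elim _ _
        rw [this, h]
      rw [this]
      exact hy
    rw [← hg.1 _ _ hxy]
    exact dist_le_pi_dist x y 0
  have hclose : ∀ x x' : Fin 1 → N.carrier, x ∈ D → x' ∉ D → δ ≤ |(Q N (x 0) : ℝ) - Q N (x' 0)| := by
    intro x x' hx hx'
    by_contra hlt
    push Not at hlt
    have h3 := hk N N hg hg (fun a : (∅ : Set N.carrier) => (a : N.carrier))
      (fun a : (∅ : Set N.carrier) => (a : N.carrier)) x x' (by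
        constructor
        · rintro (z | z) (w | w)
          · exact absurd z.2 (Set.notMem_empty _)
          · exact absurd z.2 (Set.notMem_empty _)
          · exact absurd w.2 (Set.notMem_empty _)
          · have : z = w := Subsingleton.elim _ _
            rw [this]
            exact ⟨fun _ => rfl, fun _ => rfl⟩
        · rintro (z | z)
          · exact absurd z.2 (Set.notMem_empty _)
          · have : z = 0 := Subsingleton.elim _ _
            rw [this]
            exact hlt)
    have h4 := hφ x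
    have h5 := hφ x'
    have h6 : Metric.infDist x D = 0 := Metric.infDist_zero_of_mem hx
    have h7 := hout x' hx'
    have h3' : |(N.ev ∅ φ x : ℝ) - N.ev ∅ φ x'| ≤ 1 / 8 := h3
    rw [abs_le] at h4 h5 h3'
    obtain ⟨a1, a2⟩ := h4
    obtain ⟨a3, a4⟩ := h5
    obtain ⟨a5, a6⟩ := h3'
    linarith
  -- connectedness of the unit interval
  have hpre : IsPreconnected (Set.univ : Set I) := isPreconnected_univ
  set u : Set I := ⋃ x ∈ D, Metric.ball (Q N (x 0)) (δ / 2) with hu
  set v : Set I := ⋃ x ∈ Dᶜ, Metric.ball (Q N (x 0)) (δ / 2) with hv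
  have hou : IsOpen u := isOpen_biUnion fun _ _ => Metric.isOpen_ball
  have hov : IsOpen v := isOpen_biUnion fun _ _ => Metric.isOpen_ball
  obtain ⟨r, -, hr1, hr2⟩ := hpre u v hou hov (by
    intro r _
    obtain ⟨y, -, hy⟩ := hg.2 r (δ / 2) (by positivity) 0 Fin.elim0
    have hy' : r ∈ Metric.ball (Q N y) (δ / 2) := by
      rw [Metric.mem_ball, dist_comm]
      exact hy
    by_cases hyD : (fun _ : Fin 1 => y) ∈ D
    · exact Or.inl (Set.mem_biUnion hyD hy')
    · exact Or.inr (Set.mem_biUnion (show (fun _ : Fin 1 => y) ∈ Dᶜ from hyD) hy'))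
    ⟨Q N (a 0), trivial, Set.mem_biUnion ha (Metric.mem_ball_self (by positivity))⟩
    ⟨Q N (b 0), trivial, Set.mem_biUnion (show b ∈ Dᶜ from hb)
      (Metric.mem_ball_self (by positivity))⟩
  rw [hu, Set.mem_iUnion₂] at hr1
  rw [hv, Set.mem_iUnion₂] at hr2
  obtain ⟨x, hx, hx1⟩ := hr1
  obtain ⟨x', hx', hx1'⟩ := hr2
  have h3 := hclose x x' hx hx'
  rw [Metric.mem_ball] at hx1 hx1'
  have h4 : dist (Q N (x 0)) (Q N (x' 0)) < δ := by
    have := dist_triangle_left (Q N (x 0)) (Q N (x' 0)) r
    linarith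
  have h5 : |(Q N (x 0) : ℝ) - Q N (x' 0)| < δ := h4
  linarith

theorem not_enough : ¬ T0.EnoughDDefinable := by
  intro h
  set c : Fin 1 → M0.carrier := fun _ => (⟨1 / 2, by constructor <;> norm_num⟩ : Pt) with hc
  set c' : Fin 1 → M0.carrier := fun _ => (⟨0, by constructor <;> norm_num⟩ : Pt) with hc'
  obtain ⟨𝒟, h1, h2⟩ := h M0 models_M0 ∅ 1 (fun φ => M0.ev ∅ φ c)
    (fun F ε hε => ⟨c, fun φ _ => by simp [hε.le]⟩)
  have h3 : c ∈ {a | M0.Realizes a (fun φ : Fm Lx (∅ : Set M0.carrier) 1 => M0.ev ∅ φ c)} :=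
    fun _ => rfl
  have h4 : c' ∈ {a | M0.Realizes a (fun φ : Fm Lx (∅ : Set M0.carrier) 1 => M0.ev ∅ φ c)} := by
    rw [h2]
    rw [h2] at h3
    intro D hD
    rcases trivial_defSet models_M0 (h1 D hD) with h5 | h5
    · rw [h5] at hD
      exact absurd (h3 ∅ hD) (Set.notMem_empty _)
    · rw [h5]
      trivial
  have h5 := h4 (.rel (show Lx.Rel from ()) (fun _ => .var (Sum.inr 0)))
  have h6 : (Q M0 (c' 0)) = Q M0 (c 0) := h5
  have h7 : (0 : ℝ) = 1 / 2 := congrArg Subtype.val h6
  norm_num at h7

end Pool.Agent.H813.CL.Ex
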