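import Pool.Agent.H813.CL.Ex2

/-!
# Counting the types of the theory of the unit interval with the discrete metric
-/

set_option autoImplicit false

open scoped unitInterval

noncomputable section

namespace Pool.Agent.H813.CL.Ex

open Pool.Agent.H813.CL

/-! ### Finitely many parameters -/

theorem tm_exists_finite {L : Sig} {M : Str.{0} L} {A : Set M.carrier} {n : ℕ}
    (t : Tm.{0} L (A ⊕ Fin n)) :
    ∃ A₀ ⊆ A, A₀.Finite ∧ ∀ B : Set M.carrier, A₀ ⊆ B → ∃ t' : Tm.{0} L (B ⊕ Fin n),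
      ∀ x : Fin n → M.carrier, t'.val M (Sum.elim (fun b : B => (b : M.carrier)) x) =
        t.val M (Sum.elim (fun a : A => (a : M.carrier)) x) := by
  induction t with
  | var v =>
    rcases v with a | i
    · exact ⟨{a.1}, Set.singleton_subset_iff.2 a.2, Set.finite_singleton _, fun B hB =>
        ⟨.var (Sum.inl ⟨a.1, hB rfl⟩), fun x => rfl⟩⟩
    · exact ⟨∅, Set.empty_subset _, Set.finite_empty, fun B _ => ⟨.var (Sum.inr i), fun x => rfl⟩⟩
  | fn f t ih =>
    choose A₀ h1 h2 h3 using ih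
    refine ⟨⋃ i, A₀ i, Set.iUnion_subset h1, Set.finite_iUnion h2, fun B hB => ?_⟩
    choose t' ht' using fun i => h3 i B ((Set.subset_iUnion A₀ i).trans hB)
    refine ⟨.fn f t', fun x => ?_⟩
    simp only [Tm.val, ht']

theorem fm_exists_finite {L : Sig} {M : Str.{0} L} {A : Set M.carrier} {n : ℕ}
    (φ : Fm.{0} L A n) :
    ∃ A₀ ⊆ A, A₀.Finite ∧ ∀ B : Set M.carrier, A₀ ⊆ B → ∃ φ' : Fm.{0} L B n,
      ∀ x, M.ev B φ' x = M.ev A φ x := by
  induction φ with
  | dist s t =>
    obtain ⟨A₁, h1, h2, h3⟩ := tm_exists_finite s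
    obtain ⟨A₂, h4, h5, h6⟩ := tm_exists_finite t
    refine ⟨A₁ ∪ A₂, Set.union_subset h1 h4, h2.union h5, fun B hB => ?_⟩
    obtain ⟨s', hs'⟩ := h3 B (Set.subset_union_left.trans hB)
    obtain ⟨t', ht'⟩ := h6 B (Set.subset_union_right.trans hB)
    refine ⟨.dist s' t', fun x => ?_⟩
    simp only [Str.ev, Fm.val, hs', ht']
  | rel R t =>
    choose A₀ h1 h2 h3 using fun i => tm_exists_finite (t i)
    refine ⟨⋃ i, A₀ i, Set.iUnion_subset h1, Set.finite_iUnion h2, fun B hB => ?_⟩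
    choose t' ht' using fun i => h3 i B ((Set.subset_iUnion A₀ i).trans hB)
    refine ⟨.rel R t', fun x => ?_⟩
    simp only [Str.ev, Fm.val, ht']
  | conn k c φ ih =>
    choose A₀ h1 h2 h3 using ih
    refine ⟨⋃ i, A₀ i, Set.iUnion_subset h1, Set.finite_iUnion h2, fun B hB => ?_⟩
    choose t' ht' using fun i => h3 i B ((Set.subset_iUnion A₀ i).trans hB)
    refine ⟨.conn k c t', fun x => ?_⟩
    simp only [Str.ev] at ht'
    simp only [Str.ev, Fm.val, ht']
  | inf φ ih =>
    obtain ⟨A₁, h1, h2, h3⟩ := ih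
    refine ⟨A₁, h1, h2, fun B hB => ?_⟩
    obtain ⟨φ', hφ'⟩ := h3 B hB
    refine ⟨.inf φ', fun x => ?_⟩
    simp only [Str.ev] at hφ'
    simp only [Str.ev, Fm.val, hφ']
  | sup φ ih =>
    obtain ⟨A₁, h1, h2, h3⟩ := ih
    refine ⟨A₁, h1, h2, fun B hB => ?_⟩
    obtain ⟨φ', hφ'⟩ := h3 B hB
    refine ⟨.sup φ', fun x => ?_⟩
    simp only [Str.ev] at hφ'
    simp only [Str.ev, Fm.val, hφ']

/-! ### Codes of types -/

section

variable {N : Str.{0} Lx} {A : Set N.carrier} {n : ℕ}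

/-- the predicate at `x_i` -/
def qf (A : Set N.carrier) {n : ℕ} (i : Fin n) : Fm.{0} Lx A n :=
  .rel (show Lx.Rel from ()) (fun _ => .var (Sum.inr i))

/-- the distance of `x_i` and `x_j` -/
def df (A : Set N.carrier) {n : ℕ} (i j : Fin n) : Fm.{0} Lx A n :=
  .dist (.var (Sum.inr i)) (.var (Sum.inr j))

/-- the distance of `x_i` and `a` -/
def pf {n : ℕ} (i : Fin n) (a : A) : Fm.{0} Lx A n :=
  .dist (.var (Sum.inr i)) (.var (Sum.inl a))

theorem ev_qf (i : Fin n) (x : Fin n → N.carrier) : N.ev A (qf A i) x = Q N (x i) := rfl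

theorem ev_df (i j : Fin n) (x : Fin n → N.carrier) : N.ev A (df A i j) x = N.dI (x i) (x j) := rfl

theorem ev_pf (i : Fin n) (a : A) (x : Fin n → N.carrier) : N.ev A (pf i a) x = N.dI (x i) a := rfl

theorem dI_cases (hg : IsGood N) (x y : N.carrier) : N.dI x y = 0 ∨ N.dI x y = 1 := by
  by_cases h : x = y
  · left
    apply Subtype.ext
    show dist x y = 0
    rw [h, dist_self]
  · right
    apply Subtype.ext
    exact hg.1 x y h

theorem zero_or_one {p : Fm.{0} Lx A n → I} (hp : p ∈ N.types A n) {θ : Fm.{0} Lx A n}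
    (hθ : ∀ x, N.ev A θ x = 0 ∨ N.ev A θ x = 1) : p θ = 0 ∨ p θ = 1 := by
  by_contra hc
  rw [not_or] at hc
  have h0 : (0 : ℝ) < p θ := lt_of_le_of_ne (p θ).2.1 (fun h => hc.1 (Subtype.ext h.symm))
  have h1 : (p θ : ℝ) < 1 := lt_of_le_of_ne (p θ).2.2 (fun h => hc.2 (Subtype.ext h))
  obtain ⟨x, hx⟩ := hp {θ} (min (p θ : ℝ) (1 - p θ) / 2) (by
    have : 0 < min (p θ : ℝ) (1 - p θ) := lt_min h0 (by linarith)
    positivity)
  have h2 := hx θ (Finset.mem_singleton_self θ)
  have h3 := min_le_left (p θ : ℝ) (1 - p θ)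
  have h4 := min_le_right (p θ : ℝ) (1 - p θ)
  rw [abs_le] at h2
  rcases hθ x with h | h
  · rw [h] at h2
    have h5 : ((0 : I) : ℝ) = 0 := rfl
    rw [h5] at h2
    linarith [h2.1]
  · rw [h] at h2
    have h5 : ((1 : I) : ℝ) = 1 := rfl
    rw [h5] at h2
    linarith [h2.2]

theorem dI_eq_zero_iff (x y : N.carrier) : N.dI x y = 0 ↔ x = y := by
  constructor
  · intro h
    have : dist x y = 0 := congrArg Subtype.val h
    exact dist_eq_zero.1 this
  · rintro rfl
    apply Subtype.ext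
    exact dist_self x

/-- if `b` approximates `p` at `θ`, both have the same value at `θ` -/
theorem ev_eq {p : Fm.{0} Lx A n → I} (hp : p ∈ N.types A n) {θ : Fm.{0} Lx A n}
    (hθ : ∀ x, N.ev A θ x = 0 ∨ N.ev A θ x = 1) {b : Fin n → N.carrier}
    (hb : |(N.ev A θ b : ℝ) - p θ| ≤ 1 / 4) : N.ev A θ b = p θ := by
  have h0 : ((0 : I) : ℝ) = 0 := rfl
  have h1 : ((1 : I) : ℝ) = 1 := rfl
  rw [abs_le] at hb
  rcases hθ b with h | h <;> rcases zero_or_one hp hθ with h' | h'
  · rw [h, h']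
  · rw [h, h', h0, h1] at hb
    linarith [hb.1]
  · rw [h, h', h0, h1] at hb
    linarith [hb.2]
  · rw [h, h']

theorem pf_unique (hg : IsGood N) {p : Fm.{0} Lx A n → I} (hp : p ∈ N.types A n) {i : Fin n}
    {a a' : A} (h : p (pf i a) = 0) (h' : p (pf i a') = 0) : a = a' := by
  classical
  obtain ⟨b, hb⟩ := hp {pf i a, pf i a'} (1 / 4) (by norm_num)
  have h1 := ev_eq hp (θ := pf i a) (fun x => dI_cases hg _ _) (hb (pf i a) (by simp))
  have h2 := ev_eq hp (θ := pf i a') (fun x => dI_cases hg _ _) (hb (pf i a') (by simp))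
  rw [h, ev_pf, dI_eq_zero_iff] at h1
  rw [h', ev_pf, dI_eq_zero_iff] at h2
  exact Subtype.ext (h1.symm.trans h2)

open Classical in
/-- the code of a type -/
def code (p : Fm.{0} Lx A n → I) : (Fin n → I) × (Fin n → Option A) × (Fin n → Fin n → I) :=
  (fun i => p (qf A i), fun i => if h : ∃ a : A, p (pf i a) = 0 then some h.choose else none,
    fun i j => p (df A i j))

theorem pf_eq_of_code (hg : IsGood N) {p q : Fm.{0} Lx A n → I} (hp : p ∈ N.types A n)
    (hq : q ∈ N.types A n) (h : code p = code q) (i : Fin n) (a : A) : p (pf i a) = q (pf i a) := by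
  have h1 := congrFun (congrArg (fun c => c.2.1) h) i
  simp only [code] at h1
  by_cases hp' : ∃ a : A, p (pf i a) = 0
  · rw [dif_pos hp'] at h1
    by_cases hq' : ∃ a : A, q (pf i a) = 0
    · rw [dif_pos hq', Option.some.injEq] at h1
      have h2 := hp'.choose_spec
      have h3 := hq'.choose_spec
      rw [← h1] at h3
      by_cases ha : a = hp'.choose
      · rw [ha, h2, h3]
      · rcases zero_or_one hp (θ := pf i a) (fun x => dI_cases hg _ _) with h4 | h4
        · exact absurd (pf_unique hg hp h4 h2) ha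
        · rcases zero_or_one hq (θ := pf i a) (fun x => dI_cases hg _ _) with h5 | h5
          · exact absurd (pf_unique hg hq h5 h3) ha
          · rw [h4, h5]
    · rw [dif_neg hq'] at h1
      exact absurd h1 (by simp)
  · rw [dif_neg hp'] at h1
    by_cases hq' : ∃ a : A, q (pf i a) = 0
    · rw [dif_pos hq'] at h1
      exact absurd h1.symm (by simp)
    · rcases zero_or_one hp (θ := pf i a) (fun x => dI_cases hg _ _) with h4 | h4
      · exact absurd ⟨a, h4⟩ hp'
      · rcases zero_or_one hq (θ := pf i a) (fun x => dI_cases hg _ _) with h5 | h5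
        · exact absurd ⟨a, h5⟩ hq'
        · rw [h4, h5]

theorem eq_of_code (hg : IsGood N) {p q : Fm.{0} Lx A n → I} (hp : p ∈ N.types A n)
    (hq : q ∈ N.types A n) (h : code p = code q) : p = q := by
  classical
  funext φ
  obtain ⟨A₀, hA₀, hfin, hφ'⟩ := fm_exists_finite φ
  obtain ⟨φ', hφ'⟩ := hφ' A₀ (le_refl _)
  have := hfin.to_subtype
  have hfi := Fintype.ofFinite A₀
  apply Subtype.ext
  rw [← sub_eq_zero, ← abs_eq_zero]
  apply le_antisymm _ (abs_nonneg _)
  refine le_of_forall_pos_le_add fun ε hε => ?_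
  rw [zero_add]
  obtain ⟨δ, hδ, hk⟩ := key φ' (ε / 3) (by positivity)
  set η : ℝ := min (δ / 3) (min (1 / 4) (ε / 3)) with hη
  have hη0 : 0 < η := by positivity
  have hη1 : η ≤ δ / 3 := min_le_left _ _
  have hη2 : η ≤ 1 / 4 := (min_le_right _ _).trans (min_le_left _ _)
  have hη3 : η ≤ ε / 3 := (min_le_right _ _).trans (min_le_right _ _)
  set F : Finset (Fm.{0} Lx A n) := {φ} ∪ Finset.univ.image (fun i => qf A i) ∪
    Finset.univ.image (fun ij : Fin n × Fin n => df A ij.1 ij.2) ∪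
    Finset.univ.image (fun ia : Fin n × A₀ => pf ia.1 (⟨ia.2.1, hA₀ ia.2.2⟩ : A)) with hF
  obtain ⟨b, hb⟩ := hp F η hη0
  obtain ⟨b', hb'⟩ := hq F η hη0
  have m1 : φ ∈ F := by simp [hF]
  have m2 : ∀ i, qf A i ∈ F := by
    intro i
    simp only [hF, Finset.mem_union, Finset.mem_image, Finset.mem_univ, true_and]
    exact Or.inl (Or.inl (Or.inr ⟨i, rfl⟩))
  have m3 : ∀ i j, df A i j ∈ F := by
    intro i j
    simp only [hF, Finset.mem_union, Finset.mem_image, Finset.mem_univ, true_and]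
    exact Or.inl (Or.inr ⟨(i, j), rfl⟩)
  have m4 : ∀ i (a : A₀), pf i (⟨a.1, hA₀ a.2⟩ : A) ∈ F := by
    intro i a
    simp only [hF, Finset.mem_union, Finset.mem_image, Finset.mem_univ, true_and]
    exact Or.inr ⟨(i, a), rfl⟩
  have e1 : ∀ i (a : A₀), b i = a ↔ b' i = a := by
    intro i a
    have h1 := ev_eq hp (θ := pf i (⟨a.1, hA₀ a.2⟩ : A)) (fun x => dI_cases hg _ _)
      ((hb _ (m4 i a)).trans hη2)
    have h2 := ev_eq hq (θ := pf i (⟨a.1, hA₀ a.2⟩ : A)) (fun x => dI_cases hg _ _)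
      ((hb' _ (m4 i a)).trans hη2)
    have h3 : b i = a ↔ N.ev A (pf i (⟨a.1, hA₀ a.2⟩ : A)) b = 0 := by
      rw [ev_pf, dI_eq_zero_iff]
    have h4 : b' i = a ↔ N.ev A (pf i (⟨a.1, hA₀ a.2⟩ : A)) b' = 0 := by
      rw [ev_pf, dI_eq_zero_iff]
    rw [h3, h4, h1, h2, pf_eq_of_code hg hp hq h]
  have e2 : ∀ i j, b i = b j ↔ b' i = b' j := by
    intro i j
    have h1 := ev_eq hp (θ := df A i j) (fun x => dI_cases hg _ _) ((hb _ (m3 i j)).trans hη2)
    have h2 := ev_eq hq (θ := df A i j) (fun x => dI_cases hg _ _) ((hb' _ (m3 i j)).trans hη2)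
    have h3 : b i = b j ↔ N.ev A (df A i j) b = 0 := by rw [ev_df, dI_eq_zero_iff]
    have h4 : b' i = b' j ↔ N.ev A (df A i j) b' = 0 := by rw [ev_df, dI_eq_zero_iff]
    have h5 : p (df A i j) = q (df A i j) := congrFun (congrFun (congrArg (fun c => c.2.2) h) i) j
    rw [h3, h4, h1, h2, h5]
  have hsim : Sim N N δ (Sum.elim (fun a : A₀ => (a : N.carrier)) b)
      (Sum.elim (fun a : A₀ => (a : N.carrier)) b') := by
    constructor
    · rintro (z | z) (w | w)
      · exact Iff.rfl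
      · show (z : N.carrier) = b w ↔ (z : N.carrier) = b' w
        rw [eq_comm, e1 w z, eq_comm]
      · exact e1 z w
      · exact e2 z w
    · rintro (z | z)
      · show |(Q N (z : N.carrier) : ℝ) - Q N (z : N.carrier)| < δ
        rw [sub_self, abs_zero]
        exact hδ
      · show |(Q N (b z) : ℝ) - Q N (b' z)| < δ
        have h1 := hb _ (m2 z)
        have h2 := hb' _ (m2 z)
        have h3 : p (qf A z) = q (qf A z) := congrFun (congrArg (fun c => c.1) h) z
        rw [ev_qf] at h1 h2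
        rw [h3] at h1
        rw [abs_le] at h1 h2
        rw [abs_lt]
        constructor <;> linarith [h1.1, h1.2, h2.1, h2.2]
  have h1 := hk N N hg hg _ _ _ _ hsim
  have h2 : |(N.ev A φ b : ℝ) - N.ev A φ b'| ≤ ε / 3 := by
    rw [← hφ', ← hφ']
    exact h1
  have h3 := (hb _ m1).trans hη3
  have h4 := (hb' _ m1).trans hη3
  rw [abs_le] at h2 h3 h4 ⊢
  constructor <;> linarith [h2.1, h2.2, h3.1, h3.2, h4.1, h4.2]

end

theorem typeBound_T0 (lam : Cardinal.{0}) (hlam : Cardinal.continuum ≤ lam) :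
    T0.TypeBound lam := by
  intro N hN A hA n
  have hg := good_of_models hN
  have hinf : Cardinal.aleph0 ≤ lam := Cardinal.aleph0_le_continuum.trans hlam
  have hI : Cardinal.mk I ≤ lam := by
    refine le_trans ?_ hlam
    rw [← Cardinal.mk_real]
    exact Cardinal.mk_subtype_le _
  have hpow : ∀ (X : Type), Cardinal.mk X ≤ lam → Cardinal.mk (Fin n → X) ≤ lam := by
    intro X hX
    rw [Cardinal.mk_arrow, Cardinal.lift_id, Cardinal.lift_id, Cardinal.mk_fin]
    exact (Cardinal.power_le_power_right hX).trans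
      (by rw [Cardinal.power_natCast]; exact Cardinal.power_nat_le hinf)
  have hO : Cardinal.mk (Option A) ≤ lam := by
    rw [Cardinal.mk_option]
    exact Cardinal.add_le_of_le hinf hA (Cardinal.one_le_aleph0.trans hinf)
  have h1 : Function.Injective (fun p : N.types A n => code p.1) := by
    intro p q h
    exact Subtype.ext (eq_of_code hg p.2 q.2 h)
  refine (Cardinal.mk_le_of_injective h1).trans ?_
  rw [Cardinal.mk_prod, Cardinal.mk_prod, Cardinal.lift_id, Cardinal.lift_id, Cardinal.lift_id,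
    Cardinal.lift_id]
  refine Cardinal.mul_le_of_le hinf (hpow _ hI) (Cardinal.mul_le_of_le hinf (hpow _ hO)
    (hpow _ (hpow _ hI)))

end Pool.Agent.H813.CL.Ex
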