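import Pool.Agent.H813.CL.Defs

/-!
# Functions given by formulas: closure properties
-/

set_option autoImplicit false

open scoped unitInterval

noncomputable section

namespace Pool.Agent.H813.CL

universe u

variable {L : Sig}

/-- Substitution of terms that are variables or parameters: terms. -/
def Tm.map {V W : Type u} (g : V → W) : Tm L V → Tm L W
  | .var v => .var (g v)
  | .fn f t => .fn f (fun i => (t i).map g)

theorem Tm.val_map (M : Str.{u} L) {V W : Type u} (g : V → W) (e : W → M.carrier) (t : Tm L V) :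
    (t.map g).val M e = t.val M (fun v => e (g v)) := by
  induction t with
  | var v => rfl
  | fn f t ih => simp only [Tm.map, Tm.val, ih]

/-- lift of a substitution under a quantifier -/
def liftS {A B : Type u} {n m : ℕ} (g : A ⊕ Fin n → B ⊕ Fin m) :
    A ⊕ Fin (n + 1) → B ⊕ Fin (m + 1) :=
  Sum.elim (fun a => Sum.map id Fin.castSucc (g (Sum.inl a)))
    (Fin.snoc (α := fun _ => B ⊕ Fin (m + 1)) (fun i => Sum.map id Fin.castSucc (g (Sum.inr i)))
      (Sum.inr (Fin.last m)))

/-- Substitution in formulas. -/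
def Fm.sub {A B : Type u} : {n m : ℕ} → (A ⊕ Fin n → B ⊕ Fin m) → Fm L A n → Fm L B m
  | _, _, g, .dist s t => .dist (s.map g) (t.map g)
  | _, _, g, .rel R t => .rel R (fun i => (t i).map g)
  | _, _, g, .conn k c φ => .conn k c (fun i => (φ i).sub g)
  | _, _, g, .inf φ => .inf (φ.sub (liftS g))
  | _, _, g, .sup φ => .sup (φ.sub (liftS g))

theorem elim_castSucc {X : Type u} {B : Type u} {m : ℕ} (w : B → X) (y : Fin m → X) (a : X)
    (z : B ⊕ Fin m) :
    Sum.elim w (Fin.snoc (α := fun _ => X) y a) (Sum.map id Fin.castSucc z) = Sum.elim w y z := by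
  rcases z with b | i
  · rfl
  · simp

theorem lift_inl {X : Type u} {A B : Type u} {n m : ℕ} (g : A ⊕ Fin n → B ⊕ Fin m) (w : B → X)
    (y : Fin m → X) (a : X) :
    (fun b : A => Sum.elim w (Fin.snoc (α := fun _ => X) y a) (liftS g (Sum.inl b))) =
      fun b => Sum.elim w y (g (Sum.inl b)) := by
  funext b
  simp only [liftS, Sum.elim_inl]
  exact elim_castSucc w y a _

theorem lift_inr {X : Type u} {A B : Type u} {n m : ℕ} (g : A ⊕ Fin n → B ⊕ Fin m) (w : B → X)
    (y : Fin m → X) (a : X) :
    (fun i : Fin (n + 1) => Sum.elim w (Fin.snoc (α := fun _ => X) y a) (liftS g (Sum.inr i))) =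
      Fin.snoc (α := fun _ => X) (fun i => Sum.elim w y (g (Sum.inr i))) a := by
  funext i
  refine Fin.lastCases ?_ (fun j => ?_) i
  · simp only [liftS, Sum.elim_inr, Fin.snoc_last]
  · simp only [liftS, Sum.elim_inr, Fin.snoc_castSucc]
    exact elim_castSucc w y a _

theorem sum_elim_comp {X : Type u} {A B : Type u} {n m : ℕ} (g : A ⊕ Fin n → B ⊕ Fin m)
    (w : B → X) (y : Fin m → X) :
    (fun z => Sum.elim w y (g z)) =
      Sum.elim (fun a => Sum.elim w y (g (Sum.inl a))) (fun i => Sum.elim w y (g (Sum.inr i))) := by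
  funext z
  rcases z with z | z <;> rfl

theorem Fm.val_sub (M : Str.{u} L) {A B : Type u} {n m : ℕ} (g : A ⊕ Fin n → B ⊕ Fin m)
    (w : B → M.carrier) (y : Fin m → M.carrier) (φ : Fm L A n) :
    (φ.sub g).val M w y =
      φ.val M (fun a => Sum.elim w y (g (Sum.inl a))) (fun i => Sum.elim w y (g (Sum.inr i))) := by
  induction φ generalizing m with
  | dist s t => simp only [Fm.sub, Fm.val, Tm.val_map, sum_elim_comp]
  | rel R t => simp only [Fm.sub, Fm.val, Tm.val_map, sum_elim_comp]
  | conn k c φ ih => simp only [Fm.sub, Fm.val, ih]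
  | inf φ ih => simp only [Fm.sub, Fm.val, ih, lift_inl, lift_inr]
  | sup φ ih => simp only [Fm.sub, Fm.val, ih, lift_inl, lift_inr]

variable (M : Str.{u} L)

/-- `f : M^n → [0,1]` is the value function of a formula over `A`. -/
def Form (A : Set M.carrier) (n : ℕ) (f : (Fin n → M.carrier) → I) : Prop :=
  ∃ φ : Fm L A n, ∀ x, M.ev A φ x = f x

variable {M}

namespace Form

variable {A B : Set M.carrier} {n m : ℕ}

theorem ev (φ : Fm L A n) : Form M A n (M.ev A φ) := ⟨φ, fun _ => rfl⟩

theorem congr {f g : (Fin n → M.carrier) → I} (hf : Form M A n f) (h : ∀ x, f x = g x) :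
    Form M A n g := by
  obtain ⟨φ, hφ⟩ := hf
  exact ⟨φ, fun x => (hφ x).trans (h x)⟩

/-- connectives -/
theorem conn {k : ℕ} (c : C(Fin k → I, I)) {f : Fin k → (Fin n → M.carrier) → I}
    (hf : ∀ i, Form M A n (f i)) : Form M A n (fun x => c (fun i => f i x)) := by
  choose φ hφ using hf
  refine ⟨.conn k c φ, fun x => ?_⟩
  show c (fun i => M.ev A (φ i) x) = _
  congr 1
  funext i
  exact hφ i x

theorem const (r : I) : Form M A n (fun _ => r) :=
  conn (k := 0) (f := fun i => i.elim0) (ContinuousMap.const _ r) (fun i => i.elim0)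

theorem conn1 {c : I → I} (hc : Continuous c) {f : (Fin n → M.carrier) → I} (hf : Form M A n f) :
    Form M A n (fun x => c (f x)) :=
  conn (k := 1) (f := fun _ => f) ⟨fun z => c (z 0), hc.comp (continuous_apply 0)⟩ (fun _ => hf)

theorem conn2 {c : I → I → I} (hc : Continuous fun z : I × I => c z.1 z.2)
    {f g : (Fin n → M.carrier) → I} (hf : Form M A n f) (hg : Form M A n g) :
    Form M A n (fun x => c (f x) (g x)) := by
  have h1 : Continuous (fun z : Fin 2 → I => ((z 0, z 1) : I × I)) :=
    (continuous_apply (0 : Fin 2)).prodMk (continuous_apply (1 : Fin 2))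
  have h2 : Continuous (fun z : Fin 2 → I => c (z 0) (z 1)) := hc.comp h1
  refine (conn (k := 2) (f := ![f, g]) ⟨fun z => c (z 0) (z 1), h2⟩ (fun i => ?_)).congr
    (fun x => ?_)
  · fin_cases i
    · exact hf
    · exact hg
  · rfl

/-- substitution of variables and parameters for variables -/
theorem subst {f : (Fin n → M.carrier) → I} (hf : Form M A n f) (hAB : A ⊆ B)
    (g : Fin n → B ⊕ Fin m) :
    Form M B m (fun y => f (fun i => Sum.elim (fun b : B => (b : M.carrier)) y (g i))) := by
  obtain ⟨φ, hφ⟩ := hf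
  refine ⟨φ.sub (Sum.elim (fun a => Sum.inl (Set.inclusion hAB a)) g), fun y => ?_⟩
  exact (Fm.val_sub M _ _ y φ).trans (hφ _)

theorem mono {f : (Fin n → M.carrier) → I} (hf : Form M A n f) (hAB : A ⊆ B) : Form M B n f :=
  (hf.subst hAB (fun i => Sum.inr i)).congr (fun _ => rfl)

theorem reindex {f : (Fin n → M.carrier) → I} (hf : Form M A n f) (g : Fin n → Fin m) :
    Form M A m (fun y => f (fun i => y (g i))) :=
  (hf.subst (le_refl _) (fun i => Sum.inr (g i))).congr (fun _ => rfl)

theorem distv (i j : Fin n) : Form M A n (fun x => M.dI (x i) (x j)) :=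
  ⟨.dist (.var (Sum.inr i)) (.var (Sum.inr j)), fun _ => rfl⟩

theorem iInf1 {f : (Fin (n + 1) → M.carrier) → I} (hf : Form M A (n + 1) f) :
    Form M A n (fun x => ⨅ a, f (Fin.snoc (α := fun _ => M.carrier) x a)) := by
  obtain ⟨φ, hφ⟩ := hf
  refine ⟨.inf φ, fun x => ?_⟩
  show (⨅ a, M.ev A φ (Fin.snoc (α := fun _ => M.carrier) x a)) = _
  simp only [hφ]

theorem append_snoc' {X : Type u} {n m : ℕ} (x : Fin n → X) (y : Fin m → X) (a : X) :
    (Fin.append x (Fin.snoc (α := fun _ => X) y a) : Fin (n + (m + 1)) → X) =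
      Fin.snoc (α := fun _ => X) (Fin.append x y) a := by
  funext i
  refine Fin.lastCases ?_ (fun j => ?_) (show Fin ((n + m) + 1) from i)
  · rw [Fin.snoc_last]
    have : (Fin.last (n + m) : Fin (n + m + 1)) = Fin.natAdd n (Fin.last m) := rfl
    rw [this, Fin.append_right, Fin.snoc_last]
  · rw [Fin.snoc_castSucc]
    refine Fin.addCases (fun k => ?_) (fun k => ?_) j
    · have : (Fin.castSucc (Fin.castAdd m k) : Fin (n + m + 1)) = Fin.castAdd (m + 1) k := rfl
      rw [this, Fin.append_left, Fin.append_left]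
    · have : (Fin.castSucc (Fin.natAdd n k) : Fin (n + m + 1)) = Fin.natAdd n (Fin.castSucc k) := rfl
      rw [this, Fin.append_right, Fin.append_right, Fin.snoc_castSucc]

theorem iInf_block {f : (Fin (n + m) → M.carrier) → I} (hf : Form M A (n + m) f) :
    Form M A n (fun x => ⨅ y : Fin m → M.carrier, f (Fin.append x y)) := by
  induction m with
  | zero =>
    refine hf.congr (fun x => ?_)
    have : ∀ y : Fin 0 → M.carrier, Fin.append x y = x := by
      intro y
      have : y = Fin.elim0 := by funext i; exact i.elim0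
      subst this
      exact Fin.append_right_nil x _ rfl
    rw [iInf_unique, this]
  | succ m ih =>
    refine (ih (iInf1 (n := n + m) hf)).congr (fun x => ?_)
    apply le_antisymm
    · refine le_iInf fun y => ?_
      have h : y = Fin.snoc (α := fun _ => M.carrier) (Fin.init y) (y (Fin.last m)) :=
        (Fin.snoc_init_self y).symm
      refine iInf_le_of_le (Fin.init y) (iInf_le_of_le (y (Fin.last m)) (le_of_eq ?_))
      rw [← append_snoc', ← h]
    · refine le_iInf fun y => le_iInf fun a => ?_
      refine iInf_le_of_le (Fin.snoc (α := fun _ => M.carrier) y a) (le_of_eq ?_)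
      rw [append_snoc']

end Form

end Pool.Agent.H813.CL
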