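import Pool.Agent.H813.CL.Form

/-!
# Saturated structures: homogeneity and separability of the spaces of `n`-types
-/

set_option autoImplicit false

open scoped unitInterval

noncomputable section

namespace Pool.Agent.H813.CL

universe u

variable {L : Sig}

theorem bot_eq0 : (⊥ : I) = 0 := rfl

theorem top_eq1 : (⊤ : I) = 1 := rfl

/-- `max (z - ε) 0` -/
def cut (ε : ℝ) (z : I) : I := Set.projIcc 0 1 zero_le_one ((z : ℝ) - ε)

theorem continuous_cut (ε : ℝ) : Continuous (cut ε) :=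
  continuous_projIcc.comp (continuous_subtype_val.sub continuous_const)

theorem cut_eq_zero {ε : ℝ} {z : I} : cut ε z = 0 ↔ (z : ℝ) ≤ ε := by
  unfold cut
  have h := Set.projIcc_eq_left (a := (0 : ℝ)) (b := 1) (x := (z : ℝ) - ε) zero_lt_one
  constructor
  · intro h1
    have := h.1 h1
    linarith
  · intro h1
    exact h.2 (by linarith)

/-- `|z - w|` -/
def adiff (z w : I) : I :=
  ⟨|(z : ℝ) - w|, abs_nonneg _, by rw [abs_le]; constructor <;> linarith [z.2.1, z.2.2, w.2.1, w.2.2]⟩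

theorem continuous_adiff : Continuous (fun z : I × I => adiff z.1 z.2) :=
  Continuous.subtype_mk (by fun_prop) _

theorem adiff_eq_zero {z w : I} : adiff z w = 0 ↔ z = w := by
  constructor
  · intro h
    have h1 : |(z : ℝ) - w| = 0 := congrArg Subtype.val h
    exact Subtype.ext (by linarith [abs_eq_zero.1 h1])
  · rintro rfl
    exact Subtype.ext (by simp [adiff])

theorem adiff_self (z : I) : adiff z z = 0 := adiff_eq_zero.2 rfl

/-- the metric on `M^n` as a function to `[0,1]` -/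
def Str.dIn (M : Str.{u} L) {n : ℕ} (x y : Fin n → M.carrier) : I :=
  Finset.univ.sup (fun i => M.dI (x i) (y i))

theorem Str.coe_dIn (M : Str.{u} L) {n : ℕ} (x y : Fin n → M.carrier) :
    (M.dIn x y : ℝ) = dist x y := by
  apply le_antisymm
  · have h : M.dIn x y ≤ ⟨dist x y, dist_nonneg,
        (dist_pi_le_iff zero_le_one).2 (fun i => M.dist_le _ _)⟩ := by
      refine Finset.sup_le (fun i _ => ?_)
      show dist (x i) (y i) ≤ dist x y
      exact dist_le_pi_dist x y i
    exact h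
  · refine (dist_pi_le_iff (M.dIn x y).2.1).2 (fun i => ?_)
    exact Finset.le_sup (f := fun i => M.dI (x i) (y i)) (Finset.mem_univ i)

variable {M : Str.{u} L}

namespace Form

variable {A B : Set M.carrier} {n m : ℕ}

theorem finsup {ι : Type*} (s : Finset ι) {f : ι → (Fin n → M.carrier) → I}
    (hf : ∀ i ∈ s, Form M A n (f i)) : Form M A n (fun x => s.sup (fun i => f i x)) := by
  classical
  induction s using Finset.induction_on with
  | empty => exact (const (0 : I)).congr (fun x => by rw [Finset.sup_empty, bot_eq0])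
  | insert i s hi ih =>
    refine (conn2 (c := fun z w => z ⊔ w) (by fun_prop) (hf i (Finset.mem_insert_self i s))
      (ih (fun j hj => hf j (Finset.mem_insert_of_mem hj)))).congr (fun x => ?_)
    rw [Finset.sup_insert]

/-- the distance of two blocks of variables -/
theorem distb : Form M A (n + n) (fun z => M.dIn (fun i => z (Fin.castAdd n i))
    (fun i => z (Fin.natAdd n i))) :=
  finsup Finset.univ (fun i _ => distv (Fin.castAdd n i) (Fin.natAdd n i))

theorem adiffc {f : (Fin n → M.carrier) → I} (hf : Form M A n f) (r : I) :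
    Form M A n (fun x => adiff (f x) r) :=
  conn2 (c := adiff) continuous_adiff hf (const r)

/-- plug in the first block of variables -/
theorem plug {f : (Fin (n + m) → M.carrier) → I} (hf : Form M A (n + m) f) (hAB : A ⊆ B)
    (a : Fin n → M.carrier) (ha : ∀ i, a i ∈ B) :
    Form M B m (fun y => f (Fin.append a y)) := by
  refine (hf.subst hAB (Fin.addCases (fun i => Sum.inl ⟨a i, ha i⟩) (fun j => Sum.inr j))).congr
    (fun y => ?_)
  congr 1
  funext i
  refine Fin.addCases (fun k => ?_) (fun k => ?_) i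
  · simp
  · simp

end Form

theorem Tm.exists_countable {A : Set M.carrier} {n : ℕ} (t : Tm L (A ⊕ Fin n)) :
    ∃ A₀ ⊆ A, A₀.Countable ∧ ∀ B : Set M.carrier, A₀ ⊆ B → ∃ t' : Tm L (B ⊕ Fin n),
      ∀ x : Fin n → M.carrier, t'.val M (Sum.elim (fun b : B => (b : M.carrier)) x) =
        t.val M (Sum.elim (fun a : A => (a : M.carrier)) x) := by
  induction t with
  | var v =>
    rcases v with a | i
    · exact ⟨{a.1}, Set.singleton_subset_iff.2 a.2, Set.countable_singleton _, fun B hB =>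
        ⟨.var (Sum.inl ⟨a.1, hB rfl⟩), fun x => rfl⟩⟩
    · exact ⟨∅, Set.empty_subset _, Set.countable_empty, fun B _ => ⟨.var (Sum.inr i), fun x => rfl⟩⟩
  | fn f t ih =>
    choose A₀ h1 h2 h3 using ih
    refine ⟨⋃ i, A₀ i, Set.iUnion_subset h1, Set.countable_iUnion h2, fun B hB => ?_⟩
    choose t' ht' using fun i => h3 i B ((Set.subset_iUnion A₀ i).trans hB)
    refine ⟨.fn f t', fun x => ?_⟩
    simp only [Tm.val, ht']

theorem Fm.exists_countable_aux {A : Set M.carrier} {n : ℕ} (φ : Fm L A n) :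
    ∃ A₀ ⊆ A, A₀.Countable ∧ ∀ B : Set M.carrier, A₀ ⊆ B → ∃ φ' : Fm L B n,
      ∀ x, M.ev B φ' x = M.ev A φ x := by
  induction φ with
  | dist s t =>
    obtain ⟨A₁, h1, h2, h3⟩ := s.exists_countable
    obtain ⟨A₂, h4, h5, h6⟩ := t.exists_countable
    refine ⟨A₁ ∪ A₂, Set.union_subset h1 h4, h2.union h5, fun B hB => ?_⟩
    obtain ⟨s', hs'⟩ := h3 B (Set.subset_union_left.trans hB)
    obtain ⟨t', ht'⟩ := h6 B (Set.subset_union_right.trans hB)
    refine ⟨.dist s' t', fun x => ?_⟩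
    simp only [Str.ev, Fm.val, hs', ht']
  | rel R t =>
    choose A₀ h1 h2 h3 using fun i => (t i).exists_countable
    refine ⟨⋃ i, A₀ i, Set.iUnion_subset h1, Set.countable_iUnion h2, fun B hB => ?_⟩
    choose t' ht' using fun i => h3 i B ((Set.subset_iUnion A₀ i).trans hB)
    refine ⟨.rel R t', fun x => ?_⟩
    simp only [Str.ev, Fm.val, ht']
  | conn k c φ ih =>
    choose A₀ h1 h2 h3 using ih
    refine ⟨⋃ i, A₀ i, Set.iUnion_subset h1, Set.countable_iUnion h2, fun B hB => ?_⟩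
    choose t' ht' using fun i => h3 i B ((Set.subset_iUnion A₀ i).trans hB)
    refine ⟨.conn k c t', fun x => ?_⟩
    simp only [Str.ev] at ht'
    simp only [Str.ev, Fm.val, ht']
  | inf φ ih =>
    obtain ⟨A₁, h1, h2, h3⟩ := ih
    refine ⟨A₁, h1, h2, fun B hB => ?_⟩
    obtain ⟨φ', hφ'⟩ := h3 B hB
    refine ⟨.inf φ', fun x => ?_⟩
    simp only [Str.ev] at hφ'
    simp only [Str.ev, Fm.val, hφ']
  | sup φ ih =>
    obtain ⟨A₁, h1, h2, h3⟩ := ih
    refine ⟨A₁, h1, h2, fun B hB => ?_⟩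
    obtain ⟨φ', hφ'⟩ := h3 B hB
    refine ⟨.sup φ', fun x => ?_⟩
    simp only [Str.ev] at hφ'
    simp only [Str.ev, Fm.val, hφ']

theorem Fm.exists_countable {A : Set M.carrier} {n : ℕ} (φ : Fm L A n) :
    ∃ A₀ ⊆ A, A₀.Countable ∧ Form M A₀ n (M.ev A φ) := by
  obtain ⟨A₀, h1, h2, h3⟩ := φ.exists_countable_aux
  exact ⟨A₀, h1, h2, h3 A₀ (le_refl _)⟩

section Sat

variable {κ : Cardinal.{u}} {A B : Set M.carrier} {n m : ℕ}

theorem satE (hs : M.Saturated κ) (hA : Cardinal.mk A < κ) {ι : Type*}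
    (f : ι → (Fin n → M.carrier) → I) (hf : ∀ i, Form M A n (f i))
    (h : ∀ (s : Finset ι) (ε : ℝ), 0 < ε → ∃ x, ∀ i ∈ s, (f i x : ℝ) ≤ ε) :
    ∃ x, ∀ i, f i x = 0 := by
  classical
  obtain ⟨x, hx⟩ := hs A hA n {φ | ∃ (i : ι) (k : ℕ), ∀ x, M.ev A φ x = cut (1 / (k + 1)) (f i x)} (by
    intro F hF
    rcases isEmpty_or_nonempty ι with he | hne
    · obtain ⟨x, _⟩ := h ∅ 1 one_pos
      exact ⟨x, fun φ hφ => (he.false (hF φ hφ).choose).elim⟩
    have hF' : ∀ φ : Fm L A n, ∃ (i : ι) (k : ℕ), φ ∈ F →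
        ∀ x, M.ev A φ x = cut (1 / (k + 1)) (f i x) := by
      intro φ
      by_cases hφ : φ ∈ F
      · obtain ⟨i, k, h⟩ := hF φ hφ
        exact ⟨i, k, fun _ => h⟩
      · exact ⟨Classical.arbitrary ι, 0, fun h => absurd h hφ⟩
    choose i k hik using hF'
    obtain ⟨x, hx⟩ := h (F.image i) (1 / ((F.sup k : ℕ) + 1)) (by positivity)
    refine ⟨x, fun φ hφ => ?_⟩
    rw [hik φ hφ, cut_eq_zero]
    refine (hx _ (Finset.mem_image_of_mem i hφ)).trans ?_
    have h1 : k φ ≤ F.sup k := Finset.le_sup hφ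
    have h2 : (k φ : ℝ) ≤ (F.sup k : ℕ) := by exact_mod_cast h1
    exact one_div_le_one_div_of_le (by positivity) (by linarith))
  refine ⟨x, fun i => ?_⟩
  have h0 : ∀ k : ℕ, (f i x : ℝ) ≤ 1 / (k + 1) := by
    intro k
    obtain ⟨φ, hφ⟩ := (hf i).conn1 (continuous_cut (1 / ((k : ℝ) + 1)))
    have := hx φ ⟨i, k, hφ⟩
    rw [hφ, cut_eq_zero] at this
    exact this
  apply Subtype.ext
  apply le_antisymm _ (f i x).2.1
  refine le_of_forall_pos_le_add (fun ε hε => ?_)
  obtain ⟨k, hk⟩ := exists_nat_one_div_lt hε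
  have := h0 k
  show (f i x : ℝ) ≤ 0 + ε
  linarith

theorem exists_realizes (hs : M.Saturated κ) (hA : Cardinal.mk A < κ) {p : Fm L A n → I}
    (hp : p ∈ M.types A n) : ∃ a, M.Realizes a p := by
  obtain ⟨x, hx⟩ := satE hs hA (fun (φ : Fm L A n) x => adiff (M.ev A φ x) (p φ))
    (fun φ => (Form.ev φ).adiffc _) (fun s ε hε => hp s ε hε)
  exact ⟨x, fun φ => adiff_eq_zero.1 (hx φ)⟩

variable (M) in
/-- same type over `A` -/
def Eqv (A : Set M.carrier) {n : ℕ} (a b : Fin n → M.carrier) : Prop :=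
  ∀ f, Form M A n f → f a = f b

theorem Eqv.refl (a : Fin n → M.carrier) : Eqv M A a a := fun _ _ => rfl

theorem Eqv.symm {a b : Fin n → M.carrier} (h : Eqv M A a b) : Eqv M A b a :=
  fun f hf => (h f hf).symm

theorem Eqv.trans {a b c : Fin n → M.carrier} (h : Eqv M A a b) (h' : Eqv M A b c) : Eqv M A a c :=
  fun f hf => (h f hf).trans (h' f hf)

theorem Eqv.of_realizes {p : Fm L A n → I} {a b : Fin n → M.carrier} (ha : M.Realizes a p)
    (hb : M.Realizes b p) : Eqv M A a b := by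
  rintro f ⟨φ, hφ⟩
  rw [← hφ, ← hφ, ha φ, hb φ]

theorem mk_lt_of_countable (hκ : Cardinal.aleph0 < κ) (hA : A.Countable) : Cardinal.mk A < κ :=
  lt_of_le_of_lt (Cardinal.le_aleph0_iff_set_countable.2 hA) hκ

/-- homogeneity -/
theorem homog (hs : M.Saturated κ) (hκ : Cardinal.aleph0 < κ) (hA : A.Countable)
    {a a' : Fin n → M.carrier} (h : Eqv M A a a') (c : Fin m → M.carrier) :
    ∃ c', Eqv M A (Fin.append a c) (Fin.append a' c') := by
  have hB : (A ∪ Set.range a').Countable := hA.union (Set.countable_range a')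
  obtain ⟨c', hc'⟩ := satE (A := A ∪ Set.range a') hs (mk_lt_of_countable hκ hB)
    (fun (f : {f // Form M A (n + m) f}) (y : Fin m → M.carrier) =>
      adiff (f.1 (Fin.append a' y)) (f.1 (Fin.append a c)))
    (fun f => (f.2.plug (B := A ∪ Set.range a') Set.subset_union_left a'
      (fun i => Or.inr ⟨i, rfl⟩)).adiffc _) (by
      intro s ε hε
      have h1 : Form M A n (fun x => ⨅ y : Fin m → M.carrier,
          s.sup (fun f => adiff (f.1 (Fin.append x y)) (f.1 (Fin.append a c)))) :=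
        (Form.finsup s (fun f _ => f.2.adiffc (f.1 (Fin.append a c)))).iInf_block
      have h2 := h _ h1
      have h3 : (⨅ y : Fin m → M.carrier,
          s.sup (fun f => adiff (f.1 (Fin.append a y)) (f.1 (Fin.append a c)))) = ⊥ := by
        rw [eq_bot_iff]
        refine iInf_le_of_le c (Finset.sup_le fun f _ => ?_)
        rw [adiff_self]
        exact le_of_eq bot_eq0.symm
      have h2 : (⨅ y : Fin m → M.carrier,
          s.sup (fun f => adiff (f.1 (Fin.append a y)) (f.1 (Fin.append a c)))) =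
          ⨅ y : Fin m → M.carrier,
          s.sup (fun f => adiff (f.1 (Fin.append a' y)) (f.1 (Fin.append a c))) := h2
      rw [h3] at h2
      have h4 : (⨅ y : Fin m → M.carrier,
          s.sup (fun f => adiff (f.1 (Fin.append a' y)) (f.1 (Fin.append a c)))) <
          ⟨min ε 1, by positivity, min_le_right _ _⟩ := by
        rw [← h2]
        show (0 : ℝ) < min ε 1
        positivity
      obtain ⟨y, hy⟩ := iInf_lt_iff.1 h4
      refine ⟨y, fun f hf => ?_⟩
      have h5 := (Finset.le_sup (f := fun f : {f // Form M A (n + m) f} =>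
        adiff (f.1 (Fin.append a' y)) (f.1 (Fin.append a c))) hf).trans hy.le
      have h6 : ((adiff (f.1 (Fin.append a' y)) (f.1 (Fin.append a c)) : I) : ℝ) ≤ min ε 1 := h5
      exact h6.trans (min_le_left _ _))
  exact ⟨c', fun f hf => (adiff_eq_zero.1 (hc' ⟨f, hf⟩)).symm⟩

theorem Eqv.right {a a' : Fin n → M.carrier} {c c' : Fin m → M.carrier}
    (h : Eqv M A (Fin.append a c) (Fin.append a' c')) : Eqv M A c c' := by
  intro f hf
  have h1 := h _ (hf.reindex (Fin.natAdd n))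
  simpa using h1

theorem Eqv.left {a a' : Fin n → M.carrier} {c c' : Fin m → M.carrier}
    (h : Eqv M A (Fin.append a c) (Fin.append a' c')) : Eqv M A a a' := by
  intro f hf
  have h1 := h _ (hf.reindex (Fin.castAdd m))
  simpa using h1

theorem Eqv.dist_eq {a a' c c' : Fin n → M.carrier}
    (h : Eqv M A (Fin.append a c) (Fin.append a' c')) : dist a c = dist a' c' := by
  have h1 := h _ Form.distb
  simp only [Fin.append_left, Fin.append_right] at h1
  rw [← M.coe_dIn, ← M.coe_dIn, h1]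

variable (M) in
/-- the distance of the types is less than `ε` -/
def Close (A : Set M.carrier) (ε : ℝ) {n : ℕ} (a b : Fin n → M.carrier) : Prop :=
  ∃ a' b', Eqv M A a a' ∧ Eqv M A b b' ∧ dist a' b' < ε

theorem Close.symm {ε : ℝ} {a b : Fin n → M.carrier} (h : Close M A ε a b) : Close M A ε b a := by
  obtain ⟨a', b', h1, h2, h3⟩ := h
  exact ⟨b', a', h2, h1, by rwa [dist_comm]⟩

theorem Close.move (hs : M.Saturated κ) (hκ : Cardinal.aleph0 < κ) (hA : A.Countable) {ε : ℝ}
    {a b : Fin n → M.carrier} (h : Close M A ε a b) {b₀ : Fin n → M.carrier}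
    (hb : Eqv M A b b₀) : ∃ a₀, Eqv M A a a₀ ∧ dist a₀ b₀ < ε := by
  obtain ⟨a', b', h1, h2, h3⟩ := h
  obtain ⟨a₀, h4⟩ := homog hs hκ hA (h2.symm.trans hb) a'
  refine ⟨a₀, h1.trans h4.right, ?_⟩
  rw [dist_comm, ← h4.dist_eq, dist_comm]
  exact h3

theorem Close.trans (hs : M.Saturated κ) (hκ : Cardinal.aleph0 < κ) (hA : A.Countable) {ε δ : ℝ}
    {a b c : Fin n → M.carrier} (h : Close M A ε a c) (h' : Close M A δ b c) :
    Close M A (ε + δ) a b := by
  obtain ⟨a₀, h1, h2⟩ := h.move hs hκ hA (Eqv.refl c)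
  obtain ⟨b₀, h3, h4⟩ := h'.move hs hκ hA (Eqv.refl c)
  refine ⟨a₀, b₀, h1, h3, ?_⟩
  have := dist_triangle a₀ c b₀
  rw [dist_comm c b₀] at this
  linarith

theorem exists_dense_one (hs : M.Saturated κ) (hκ : Cardinal.aleph0 < κ) (hω : M.OmegaStable)
    (hA : A.Countable) : ∃ C : Set (Fin 1 → M.carrier), C.Countable ∧
      ∀ a, ∀ ε : ℝ, 0 < ε → ∃ c ∈ C, Close M A ε a c := by
  obtain ⟨C, hC, hCt, h⟩ := hω A hA
  have hA' := mk_lt_of_countable hκ hA
  have h1 : ∀ q : C, ∃ a, M.Realizes a q.1 := fun q => exists_realizes hs hA' (hCt q.2)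
  choose c hc using h1
  have := hC.to_subtype
  refine ⟨Set.range c, Set.countable_range c, fun a ε hε => ?_⟩
  have hp : (fun φ => M.ev A φ a) ∈ M.types A 1 := by
    intro F ε hε
    exact ⟨a, fun φ _ => by simp [hε.le]⟩
  obtain ⟨q, hq, hd⟩ := h _ hp ε hε
  obtain ⟨b₀, hb₀⟩ := exists_realizes hs hA' (hCt hq)
  have hne : {r : ℝ | ∃ a' b' : Fin 1 → M.carrier, M.Realizes a' (fun φ : Fm L A 1 => M.ev A φ a) ∧
      M.Realizes b' q ∧ r = dist a' b'}.Nonempty := ⟨_, a, b₀, fun _ => rfl, hb₀, rfl⟩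
  obtain ⟨r, ⟨a', b', h2, h3, rfl⟩, h4⟩ := exists_lt_of_csInf_lt hne hd
  exact ⟨c ⟨q, hq⟩, ⟨⟨q, hq⟩, rfl⟩, a', b', Eqv.of_realizes (fun _ => rfl) h2,
    Eqv.of_realizes (hc ⟨q, hq⟩) h3, h4⟩

theorem exists_dense (hs : M.Saturated κ) (hκ : Cardinal.aleph0 < κ) (hω : M.OmegaStable) (n : ℕ) :
    ∀ A : Set M.carrier, A.Countable → ∃ C : Set (Fin n → M.carrier), C.Countable ∧
      ∀ a, ∀ ε : ℝ, 0 < ε → ∃ c ∈ C, Close M A ε a c := by
  induction n with
  | zero =>
    intro A _
    refine ⟨{Fin.elim0}, Set.countable_singleton _, fun a ε hε => ⟨_, rfl, a, a, Eqv.refl a, ?_, ?_⟩⟩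
    · have : a = Fin.elim0 := by funext i; exact i.elim0
      rw [this]
      exact Eqv.refl _
    · rwa [dist_self]
  | succ n ih =>
    intro A hA
    obtain ⟨C, hC, hCd⟩ := ih A hA
    have hB : (A ∪ ⋃ c ∈ C, Set.range c).Countable :=
      hA.union (hC.biUnion fun c _ => Set.countable_range c)
    set B := A ∪ ⋃ c ∈ C, Set.range c with hBdef
    obtain ⟨D, hD, hDd⟩ := exists_dense_one hs hκ hω hB
    refine ⟨(fun p : (Fin n → M.carrier) × (Fin 1 → M.carrier) => (Fin.append p.1 p.2 :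
      Fin (n + 1) → M.carrier)) '' (C ×ˢ D), (hC.prod hD).image _, fun e ε hε => ?_⟩
    obtain ⟨c, hc, h1⟩ := hCd (fun i => e (Fin.castAdd 1 i)) ε hε
    obtain ⟨b₀, h2, h3⟩ := h1.move hs hκ hA (Eqv.refl c)
    obtain ⟨x₀, h4⟩ := homog hs hκ hA h2 (fun i : Fin 1 => e (Fin.natAdd n i))
    obtain ⟨d, hd, h5⟩ := hDd x₀ ε hε
    obtain ⟨d₀, h6, h7⟩ := h5.symm.move hs hκ hB (Eqv.refl x₀)
    refine ⟨_, ⟨(c, d), ⟨hc, hd⟩, rfl⟩, Fin.append b₀ x₀, Fin.append c d₀, ?_, ?_, ?_⟩
    · have he : (Fin.append (fun i => e (Fin.castAdd 1 i)) (fun i : Fin 1 => e (Fin.natAdd n i)) :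
          Fin (n + 1) → M.carrier) = e := by
        funext i
        refine Fin.addCases (fun k => ?_) (fun k => ?_) i
        · rw [Fin.append_left]
        · rw [Fin.append_right]
      rw [he] at h4
      exact h4
    · intro f hf
      exact h6 _ (hf.plug (B := B) Set.subset_union_left c
        (fun i => Or.inr (Set.mem_biUnion hc ⟨i, rfl⟩)))
    · rw [dist_pi_lt_iff hε]
      intro i
      refine Fin.addCases (fun k => ?_) (fun k => ?_) i
      · rw [Fin.append_left, Fin.append_left]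
        exact (dist_le_pi_dist b₀ c k).trans_lt h3
      · rw [Fin.append_right, Fin.append_right, dist_comm]
        exact (dist_le_pi_dist d₀ x₀ k).trans_lt h7

end Sat

end Pool.Agent.H813.CL
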